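import Pool.Agent.Helper5.FRB.Cuts

/-!
# Perfect matchings avoiding a cheap set of edges
-/

set_option autoImplicit false

namespace Pool.Agent.Helper5.FRB

open Finset

variable {V : Type} [Fintype V] [DecidableEq V]

lemma even_card_cubic {G : SimpleGraph V} [DecidableRel G.Adj] (hG : G.IsRegularOfDegree 3) :
    Even (Fintype.card V) := by
  have h := G.sum_degrees_eq_twice_card_edges
  rw [Finset.sum_congr rfl fun x _ => hG x, Finset.sum_const, smul_eq_mul, Finset.card_univ] at h
  rw [Nat.even_iff]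
  omega

open Classical in
/-- The weight of the edges of `J`, summed over ordered pairs. -/
lemma pair_sum_le (G : SimpleGraph V) [DecidableRel G.Adj] (J : Finset (Sym2 V)) (W : V → V → ℕ)
    (w : Sym2 V → ℕ) (hw : ∀ x y, W x y = w s(x, y)) :
    (∑ x, ∑ y, if G.Adj x y ∧ s(x, y) ∈ J then W x y else 0 : ℕ) ≤ 2 * ∑ e ∈ J, w e := by
  have h1 : (∑ x, ∑ y, if G.Adj x y ∧ s(x, y) ∈ J then W x y else 0 : ℕ) ≤
      ∑ p : V × V, if s(p.1, p.2) ∈ J then w s(p.1, p.2) else 0 := by
    rw [← Finset.univ_product_univ, Finset.sum_product]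
    apply Finset.sum_le_sum
    intro x _
    apply Finset.sum_le_sum
    intro y _
    by_cases h1 : G.Adj x y <;> by_cases h2 : s(x, y) ∈ J <;> simp [h1, h2, hw]
  refine h1.trans ?_
  rw [← Finset.sum_filter]
  have h2 : ∀ p ∈ (Finset.univ.filter fun p : V × V => s(p.1, p.2) ∈ J), s(p.1, p.2) ∈ J := by
    intro p hp
    exact (Finset.mem_filter.1 hp).2
  rw [← Finset.sum_fiberwise_of_maps_to h2, Finset.mul_sum]
  apply Finset.sum_le_sum
  intro e _
  have h3 : ∀ p ∈ ((Finset.univ.filter fun p : V × V => s(p.1, p.2) ∈ J).filter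
      fun p => s(p.1, p.2) = e), w s(p.1, p.2) = w e := by
    intro p hp
    rw [(Finset.mem_filter.1 hp).2]
  rw [Finset.sum_congr rfl h3, Finset.sum_const, smul_eq_mul]
  apply Nat.mul_le_mul_right
  induction e using Sym2.ind with
  | _ a b =>
    calc _ ≤ ({(a, b), (b, a)} : Finset (V × V)).card := by
          apply Finset.card_le_card
          intro p hp
          have := (Finset.mem_filter.1 hp).2
          rw [Sym2.eq_iff] at this
          rcases this with ⟨h, h'⟩ | ⟨h, h'⟩
          · have : p = (a, b) := Prod.ext h h'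
            simp [this]
          · have : p = (b, a) := Prod.ext h h'
            simp [this]
      _ ≤ 2 := Finset.card_le_two

open Classical in
theorem budget (G : SimpleGraph V) [DecidableRel G.Adj] (hG : G.IsRegularOfDegree 3) (k : ℕ)
    (M : Fin k → G.Subgraph) (q : ℕ) (c : Fin k → ℕ) (hM : ∀ i, (M i).IsPerfectMatching)
    (hcut : ∀ K : Finset V, Odd K.card →
      3 * q + ∑ i with (∀ x ∈ K, ∀ y ∉ K, G.Adj x y → (M i).Adj x y), c i ≤
        q * ((K ×ˢ Kᶜ).filter fun p => G.Adj p.1 p.2).card)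
    (J : Finset (Sym2 V))
    (hJ : 2 * q * J.card + ∑ i, c i * (J.filter fun e => e ∉ (M i).edgeSet).card <
      6 * q + 2 * ∑ i, c i) :
    ∃ N : G.Subgraph, N.IsPerfectMatching ∧ ∀ e ∈ J, e ∉ N.edgeSet := by
  by_contra hno
  have hno' : ¬ ∃ N : G.Subgraph, N.IsPerfectMatching ∧ ∀ x y, N.Adj x y → ¬ s(x, y) ∈ J := by
    rintro ⟨N, hN, hN'⟩
    apply hno
    refine ⟨N, hN, fun e he heN => ?_⟩
    induction e using Sym2.ind with
    | _ a b => exact hN' a b (by simpa using heN) he
  obtain ⟨Q, hodd, hdis, hQ⟩ := core G (fun x y => s(x, y) ∈ J)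
    (fun x y h => by rwa [Sym2.eq_swap]) (even_card_cubic hG) hno'
  let w : Sym2 V → ℕ := fun e => 2 * q + ∑ i, c i * (if e ∈ (M i).edgeSet then 0 else 1)
  have hw : ∀ x y, w s(x, y) = 2 * q + ∑ i, c i * (if (M i).Adj x y then 0 else 1) := by
    intro x y
    simp [w]
  have key := hQ (fun x y => w s(x, y)) (6 * q + 2 * ∑ i, c i)
    (fun x y => by rw [Sym2.eq_swap]) (by
      intro x
      have h1 : ∀ y, (if G.Adj x y then w s(x, y) else 0) =
          2 * q * (if G.Adj x y then 1 else 0) +
            ∑ i, c i * (if G.Adj x y ∧ ¬ (M i).Adj x y then 1 else 0) := by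
        intro y
        rw [hw]
        by_cases h : G.Adj x y
        · simp only [h, if_true, true_and, mul_one]
          congr 1
          apply Finset.sum_congr rfl
          intro i _
          by_cases h2 : (M i).Adj x y <;> simp [h2]
        · simp [h]
      rw [Finset.sum_congr rfl fun y _ => h1 y, Finset.sum_add_distrib, ← Finset.mul_sum]
      rw [Finset.sum_comm]
      have h2 : ∀ i, (∑ y, c i * (if G.Adj x y ∧ ¬ (M i).Adj x y then 1 else 0)) = c i * 2 := by
        intro i
        rw [← Finset.mul_sum]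
        congr 1
        convert co_deg hG (hM i) x
      rw [Finset.sum_congr rfl fun i _ => h2 i, ← Finset.sum_mul]
      have h3 : (∑ y, if G.Adj x y then 1 else 0 : ℕ) = 3 := by
        convert cubic_deg hG x
      rw [h3]
      ring)
  -- the weight of J
  have hJs : (∑ x, ∑ y, if G.Adj x y ∧ s(x, y) ∈ J then w s(x, y) else 0 : ℕ) ≤
      2 * ∑ e ∈ J, w e := pair_sum_le G J (fun x y => w s(x, y)) w fun x y => rfl
  have hJw : ∑ e ∈ J, w e =
      2 * q * J.card + ∑ i, c i * (J.filter fun e => e ∉ (M i).edgeSet).card := by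
    simp only [w]
    rw [Finset.sum_add_distrib, Finset.sum_const, smul_eq_mul, mul_comm J.card (2 * q), Finset.sum_comm]
    congr 1
    apply Finset.sum_congr rfl
    intro i _
    rw [← Finset.mul_sum, Finset.card_filter]
    congr 1
    apply Finset.sum_congr rfl
    intro e _
    by_cases h : e ∈ (M i).edgeSet <;> simp [h]
  -- the cuts
  have hcuts : ∀ K ∈ Q, (6 * q + 2 * ∑ i, c i) ≤ cutW G (fun x y => w s(x, y)) K := by
    intro K hK
    have h1 : cutW G (fun x y => w s(x, y)) K =
        2 * q * cutN G (fun _ _ => True) K + ∑ i, c i * cutN G (fun x y => ¬ (M i).Adj x y) K := by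
      unfold cutW cutN
      have h2 : ∀ x y, (if G.Adj x y then w s(x, y) else 0) =
          2 * q * (if G.Adj x y ∧ True then 1 else 0) +
            ∑ i, c i * (if G.Adj x y ∧ ¬ (M i).Adj x y then 1 else 0) := by
        intro x y
        rw [hw]
        by_cases h : G.Adj x y
        · simp only [h, if_true, true_and, mul_one]
          congr 1
          apply Finset.sum_congr rfl
          intro i _
          by_cases h2 : (M i).Adj x y <;> simp [h2]
        · simp [h]
      simp only [h2, Finset.sum_add_distrib, ← Finset.mul_sum]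
      refine congrArg₂ (· + ·) (congrArg (2 * q * ·) (Finset.sum_congr rfl fun x _ =>
        Finset.sum_congr rfl fun y _ => by by_cases h : G.Adj x y <;> simp [h])) ?_
      have h3 : ∀ x, (∑ y ∈ Kᶜ, ∑ i, c i * (if G.Adj x y ∧ ¬ (M i).Adj x y then 1 else 0)) =
          ∑ i, c i * ∑ y ∈ Kᶜ, (if G.Adj x y ∧ ¬ (M i).Adj x y then 1 else 0) := by
        intro x
        rw [Finset.sum_comm]
        apply Finset.sum_congr rfl
        intro i _
        rw [Finset.mul_sum]
      rw [Finset.sum_congr rfl fun x _ => h3 x, Finset.sum_comm]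
      apply Finset.sum_congr rfl
      intro i _
      rw [Finset.mul_sum]
      refine Finset.sum_congr rfl fun x _ => congrArg (c i * ·) (Finset.sum_congr rfl fun y _ => ?_)
      by_cases h : G.Adj x y <;> by_cases h' : (M i).Adj x y <;> simp [h, h']
    have h2 := hcut K (hodd K hK)
    rw [← cutN_eq_card] at h2
    have h3 : ∑ i with ¬ (∀ x ∈ K, ∀ y ∉ K, G.Adj x y → (M i).Adj x y), c i * 2 ≤
        ∑ i, c i * cutN G (fun x y => ¬ (M i).Adj x y) K := by
      calc _ ≤ ∑ i with ¬ (∀ x ∈ K, ∀ y ∉ K, G.Adj x y → (M i).Adj x y),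
            c i * cutN G (fun x y => ¬ (M i).Adj x y) K := by
            apply Finset.sum_le_sum
            intro i hi
            apply Nat.mul_le_mul_left
            exact two_le_cut hG (hM i) (Finset.mem_filter.1 hi).2
        _ ≤ _ := Finset.sum_le_sum_of_subset (Finset.filter_subset _ _)
    have h4 : ∑ i, c i = ∑ i with (∀ x ∈ K, ∀ y ∉ K, G.Adj x y → (M i).Adj x y), c i +
        ∑ i with ¬ (∀ x ∈ K, ∀ y ∉ K, G.Adj x y → (M i).Adj x y), c i := by
      rw [Finset.sum_filter_add_sum_filter_not]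
    rw [← Finset.sum_mul] at h3
    rw [h1, mul_assoc]
    generalize q * cutN G (fun _ _ => True) K = z at *
    omega
  have h5 : (∑ K ∈ Q, (((6 * q + 2 * ∑ i, c i : ℕ) : ℤ) -
      cutW G (fun x y => w s(x, y)) K)) ≤ 0 := by
    apply Finset.sum_nonpos
    intro K hK
    have := hcuts K hK
    have : ((6 * q + 2 * ∑ i, c i : ℕ) : ℤ) ≤ (cutW G (fun x y => w s(x, y)) K : ℤ) := by
      exact_mod_cast this
    linarith
  have h6 : ((∑ x, ∑ y, if G.Adj x y ∧ s(x, y) ∈ J then w s(x, y) else 0 : ℕ) : ℤ) <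
      2 * ((6 * q + 2 * ∑ i, c i : ℕ) : ℤ) := by
    have : (∑ x, ∑ y, if G.Adj x y ∧ s(x, y) ∈ J then w s(x, y) else 0 : ℕ) <
        2 * (6 * q + 2 * ∑ i, c i) := by
      refine lt_of_le_of_lt hJs ?_
      rw [hJw]
      omega
    exact_mod_cast this
  have h7 := key
  have h8 : ((∑ x, ∑ y, (if G.Adj x y ∧ s(x, y) ∈ J then w s(x, y) else 0 : ℕ) : ℕ) : ℤ) =
    ((∑ x, ∑ y, if G.Adj x y ∧ s(x, y) ∈ J then w s(x, y) else 0 : ℕ) : ℤ) := rfl
  push_cast at h5 h6 h7
  linarith

end Pool.Agent.Helper5.FRB
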