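import Pool.Agent.Helper5.FRB.TwoFinal

/-!
# Two perfect matchings of a cubic graph: certificates
-/

set_option autoImplicit false

namespace Pool.Agent.Helper5.FRB

open Finset Pool.Agent.Helper55.FR

variable {V : Type} [Fintype V] [DecidableEq V]

/-- In a set closed under adjacency the vertices left over correspond to the odd components. -/
lemma fixed_eq (H : SimpleGraph V) (q : V → V) (hq : IsInv H q)
    (huniq : ∀ x y, q x = x → q y = y → H.Reachable x y → x = y) (K : Finset V)
    (hK : ∀ x ∈ K, ∀ y, H.Adj x y → y ∈ K) :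
    (K.filter fun x => q x = x).card =
      {C : H.ConnectedComponent | Odd C.supp.ncard ∧ C.supp ⊆ (K : Set V)}.ncard := by
  classical
  have hreach : ∀ x ∈ K, ∀ y, H.Reachable x y → y ∈ K := by
    intro x hx y h
    obtain ⟨w⟩ := h
    induction w with
    | nil => exact hx
    | cons h _ ih => exact ih (hK _ hx _ h)
  have hcomp : ∀ x : V, ∃ L : Finset V, (H.connectedComponentMk x).supp = (L : Set V) ∧
      (∀ y, y ∈ L ↔ H.Reachable x y) ∧ (L.filter fun y => q y ∉ L) = ∅ := by
    intro x
    refine ⟨univ.filter fun y => H.Reachable x y, ?_, by simp, ?_⟩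
    · ext y
      simp only [SimpleGraph.ConnectedComponent.mem_supp_iff, SimpleGraph.ConnectedComponent.eq,
        Finset.coe_filter, Finset.mem_univ, true_and, Set.mem_setOf_eq]
      exact ⟨fun h => h.symm, fun h => h.symm⟩
    · rw [Finset.filter_eq_empty_iff]
      intro y hy h
      apply h
      rw [Finset.mem_filter] at hy ⊢
      refine ⟨Finset.mem_univ _, ?_⟩
      by_cases h4 : q y = y
      · rw [h4]; exact hy.2
      · exact hy.2.trans (hq.2 y h4).reachable
  rw [← Set.ncard_coe_finset]
  apply Set.ncard_congr (fun x _ => H.connectedComponentMk x)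
  · intro x hx
    rw [Finset.mem_coe, Finset.mem_filter] at hx
    obtain ⟨L, hL, hL1, hL2⟩ := hcomp x
    refine ⟨?_, ?_⟩
    · rw [hL, Set.ncard_coe_finset, Nat.odd_iff, parity_inv q hq.1 L, hL2]
      have h2 : (L.filter fun y => q y = y) = {x} := by
        ext y
        rw [Finset.mem_filter, Finset.mem_singleton, hL1]
        constructor
        · rintro ⟨h, h'⟩
          exact huniq y x h' hx.2 h.symm
        · rintro rfl
          exact ⟨SimpleGraph.Reachable.refl _, hx.2⟩
      rw [h2]
      simp
    · rw [hL]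
      intro y hy
      exact_mod_cast hreach x hx.1 y ((hL1 y).1 (by exact_mod_cast hy))
  · intro x y hx hy h
    rw [Finset.mem_coe, Finset.mem_filter] at hx hy
    exact huniq x y hx.2 hy.2 (SimpleGraph.ConnectedComponent.eq.1 h)
  · intro C hC
    obtain ⟨hodd, hsub⟩ := hC
    induction C using SimpleGraph.ConnectedComponent.ind with
    | h x =>
      obtain ⟨L, hL, hL1, hL2⟩ := hcomp x
      rw [hL, Set.ncard_coe_finset, Nat.odd_iff, parity_inv q hq.1 L, hL2] at hodd
      have h3 : (L.filter fun y => q y = y).Nonempty := by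
        rw [Finset.nonempty_iff_ne_empty]
        intro h
        rw [h] at hodd
        simp at hodd
      obtain ⟨y, hy⟩ := h3
      rw [Finset.mem_filter] at hy
      refine ⟨y, ?_, ?_⟩
      · rw [Finset.mem_coe, Finset.mem_filter]
        refine ⟨?_, hy.2⟩
        rw [hL] at hsub
        exact_mod_cast hsub (by exact_mod_cast hy.1)
      · exact SimpleGraph.ConnectedComponent.eq.2 ((hL1 y).1 hy.1).symm

variable {G : SimpleGraph V}

open Classical in
/-- The inequality from the near-perfect matching `q` of the edges outside both matchings. -/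
theorem near_sum {M M' : G.Subgraph}
    (hdeg : ∀ y, (∑ x, if G.Adj y x ∧ ¬ M.Adj y x then 1 else 0 : ℕ) = 2)
    (hfe : ∀ K : Finset V, cutN G (fun x y => ¬ M.Adj x y) K % 2 = 0)
    {T : Finset V} {Q : Finset (Finset V)} {J : V → V → Prop} (hJM : ∀ x y, J x y → M.Adj x y)
    (hB : Barrier G J T Q) (q : V → V) (hqq : ∀ x, q (q x) = x)
    (hqadj : ∀ x, q x ≠ x → G.Adj x (q x) ∧ ¬ M.Adj x (q x) ∧ ¬ M'.Adj x (q x))
    (Q' : Finset (Finset V)) (hQ' : Q' ⊆ Q)
    (hcM : ∀ K ∈ Q', ∀ x ∈ K, q x ∈ K) :
    Q.card + ∑ K ∈ Q', (cutN G (fun x y => ¬ M.Adj x y) K + (K.filter fun x => q x = x).card) ≤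
      T.card + (univ.filter fun x => q x = x).card + Q'.card := by
  let p : Finset V → ℕ := fun K => ∑ x ∈ K, ∑ y ∈ T,
    if G.Adj x y ∧ ¬ M.Adj x y ∧ q x ≠ y then 1 else 0
  let u : Finset V → ℕ := fun K => (K.filter fun x => q x = x).card
  let m : Finset V → ℕ := fun K => (K.filter fun x => q x ∉ K).card
  let e : V → V → ℕ := fun x y => if G.Adj x y ∧ ¬ M.Adj x y then 1 else 0
  have he1 : ∀ x y, (G.Adj x y ∧ ¬ M.Adj x y) → e x y = 1 := fun x y h => if_pos h
  have he0 : ∀ x y, ¬ (G.Adj x y ∧ ¬ M.Adj x y) → e x y = 0 := fun x y h => if_neg h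
  have hcutK : ∀ K : Finset V, cutN G (fun x y => ¬ M.Adj x y) K = ∑ x ∈ K, ∑ y ∈ Kᶜ, e x y := by
    intro K
    unfold cutN
    apply Finset.sum_congr rfl
    intro x _
    apply Finset.sum_congr rfl
    intro y _
    by_cases h : G.Adj x y ∧ ¬ M.Adj x y
    · rw [he1 _ _ h, if_pos h]
    · rw [he0 _ _ h, if_neg h]
  -- edges outside `M` leaving `K`
  have hf1 : ∀ K ∈ Q, cutN G (fun x y => ¬ M.Adj x y) K ≤ m K + p K := by
    intro K hK
    have h1 : m K = ∑ x ∈ K, if q x ∉ K then 1 else 0 := by
      simp only [m, Finset.card_filter]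
    rw [h1, hcutK]
    simp only [p]
    rw [← Finset.sum_add_distrib]
    apply Finset.sum_le_sum
    intro x hx
    calc ∑ y ∈ Kᶜ, e x y
        ≤ ∑ y ∈ Kᶜ, ((if q x = y then 1 else 0) +
            (if y ∈ T then (if G.Adj x y ∧ ¬ M.Adj x y ∧ q x ≠ y then 1 else 0) else 0)) := by
          apply Finset.sum_le_sum
          intro y hy
          by_cases h1 : G.Adj x y ∧ ¬ M.Adj x y
          · rw [he1 _ _ h1]
            by_cases h2 : q x = y
            · rw [if_pos h2]
              exact Nat.le_add_right _ _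
            · have h3 : y ∈ T := by
                rcases hB.cl K hK x hx y h1.1 (fun h => h1.2 (hJM _ _ h)) with h3 | h3
                · exact absurd h3 (Finset.mem_compl.1 hy)
                · exact h3
              rw [if_neg h2, if_pos h3, if_pos ⟨h1.1, h1.2, h2⟩]
          · rw [he0 _ _ h1]
            exact Nat.zero_le _
      _ = (∑ y ∈ Kᶜ, (if q x = y then 1 else 0)) + ∑ y ∈ Kᶜ,
            (if y ∈ T then (if G.Adj x y ∧ ¬ M.Adj x y ∧ q x ≠ y then 1 else 0) else 0) :=
          Finset.sum_add_distrib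
      _ ≤ (if q x ∉ K then 1 else 0) +
            ∑ y ∈ T, (if G.Adj x y ∧ ¬ M.Adj x y ∧ q x ≠ y then 1 else 0) := by
          apply Nat.add_le_add
          · rw [Finset.sum_ite_eq]
            simp
          · calc _ ≤ ∑ y, (if y ∈ T then
                  (if G.Adj x y ∧ ¬ M.Adj x y ∧ q x ≠ y then 1 else 0) else 0) :=
                  Finset.sum_le_sum_of_subset (Finset.subset_univ _)
              _ = _ := by
                  rw [← Finset.sum_filter]
                  congr 1
                  ext y
                  simp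
  -- matching edges leaving `K` are edges outside `M`
  have hf2 : ∀ K ∈ Q, m K ≤ cutN G (fun x y => ¬ M.Adj x y) K := by
    intro K _
    have h1 : m K = ∑ x ∈ K, if q x ∉ K then 1 else 0 := by
      simp only [m, Finset.card_filter]
    rw [h1, hcutK]
    apply Finset.sum_le_sum
    intro x hx
    by_cases h : q x ∉ K
    · rw [if_pos h]
      have hne : q x ≠ x := fun h' => h (by rw [h']; exact hx)
      obtain ⟨ha, hb, -⟩ := hqadj x hne
      calc 1 = e x (q x) := (he1 _ _ ⟨ha, hb⟩).symm
        _ ≤ _ := Finset.single_le_sum (f := fun y => e x y)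
            (fun i _ => Nat.zero_le _) (Finset.mem_compl.2 h)
    · rw [if_neg h]
      exact Nat.zero_le _
  have hKp : ∀ K ∈ Q, 1 + (if K ∈ Q' then
      (cutN G (fun x y => ¬ M.Adj x y) K + (K.filter fun x => q x = x).card) else 0) ≤
      p K + u K + (if K ∈ Q' then 1 else 0) := by
    intro K hK
    have hpar := parity_inv q hqq K
    have hodd := Nat.odd_iff.1 (hB.odd K hK)
    have h1 := hf1 K hK
    have h2 := hf2 K hK
    have h3 := hfe K
    have hu : u K = (K.filter fun x => q x = x).card := rfl
    have hm : m K = (K.filter fun x => q x ∉ K).card := rfl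
    rw [← hu, ← hm] at hpar
    by_cases hc : K ∈ Q'
    · rw [if_pos hc, if_pos hc, ← hu]
      have hm0 : m K = 0 := by
        rw [hm, Finset.card_eq_zero, Finset.filter_eq_empty_iff]
        intro x hx hn
        exact hn (hcM K hc x hx)
      omega
    · rw [if_neg hc, if_neg hc]
      omega
  have hsum := Finset.sum_le_sum hKp
  rw [Finset.sum_add_distrib, Finset.sum_add_distrib, Finset.sum_add_distrib,
    ← Finset.card_eq_sum_ones, Finset.sum_ite_mem, Finset.inter_eq_right.2 hQ',
    Finset.sum_ite_mem, Finset.inter_eq_right.2 hQ', ← Finset.card_eq_sum_ones] at hsum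
  -- the right hand side
  have hp : ∑ K ∈ Q, p K ≤ ∑ y ∈ T, ∑ x, if G.Adj x y ∧ ¬ M.Adj x y ∧ q x ≠ y then 1 else 0 := by
    rw [Finset.sum_comm (s := T)]
    exact sum_disjoint_le hB.dis _
  have hT : ∀ y ∈ T, (∑ x, if G.Adj x y ∧ ¬ M.Adj x y ∧ q x ≠ y then 1 else 0 : ℕ) ≤
      1 + if q y = y then 1 else 0 := by
    intro y _
    have h2 := hdeg y
    by_cases h : q y = y
    · rw [if_pos h]
      refine le_trans ?_ (le_of_eq h2)
      apply Finset.sum_le_sum
      intro x _
      by_cases h3 : G.Adj x y ∧ ¬ M.Adj x y ∧ q x ≠ y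
      · have h4 : G.Adj y x ∧ ¬ M.Adj y x := ⟨h3.1.symm, fun h' => h3.2.1 h'.symm⟩
        rw [if_pos h3, if_pos h4]
      · rw [if_neg h3]
        exact Nat.zero_le _
    · rw [if_neg h, add_zero]
      obtain ⟨ha, hb, -⟩ := hqadj y h
      have h3 : (∑ x, if G.Adj x y ∧ ¬ M.Adj x y ∧ q x ≠ y then 1 else 0 : ℕ) +
          (∑ x, if x = q y then 1 else 0 : ℕ) ≤ 2 := by
        refine le_trans ?_ (le_of_eq h2)
        rw [← Finset.sum_add_distrib]
        apply Finset.sum_le_sum
        intro x _
        by_cases h4 : x = q y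
        · rw [h4]
          simp [ha, hb, hqq]
        · by_cases h3 : G.Adj x y ∧ ¬ M.Adj x y ∧ q x ≠ y
          · have h5 : G.Adj y x ∧ ¬ M.Adj y x := ⟨h3.1.symm, fun h' => h3.2.1 h'.symm⟩
            rw [if_pos h3, if_pos h5, if_neg h4]
          · rw [if_neg h3, if_neg h4]
            exact Nat.zero_le _
      rw [Finset.sum_ite_eq' univ (q y) (fun _ => 1)] at h3
      simp only [Finset.mem_univ, if_true] at h3
      omega
  have hT' := Finset.sum_le_sum hT
  rw [Finset.sum_add_distrib, ← Finset.card_eq_sum_ones, ← Finset.card_filter] at hT'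
  -- fixed points
  have hu : ∑ K ∈ Q, u K + (T.filter fun y => q y = y).card ≤
      (univ.filter fun x => q x = x).card := by
    have h1 : ∑ K ∈ Q, u K = (Q.biUnion fun K => K.filter fun x => q x = x).card := by
      rw [Finset.card_biUnion]
      intro K hK K' hK' hne
      exact Finset.disjoint_filter_filter (hB.dis K hK K' hK' hne)
    rw [h1, ← Finset.card_union_of_disjoint]
    · apply Finset.card_le_card
      intro x hx
      rw [Finset.mem_filter]
      refine ⟨Finset.mem_univ _, ?_⟩
      rcases Finset.mem_union.1 hx with h | h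
      · obtain ⟨K, -, hK⟩ := Finset.mem_biUnion.1 h
        exact (Finset.mem_filter.1 hK).2
      · exact (Finset.mem_filter.1 h).2
    · rw [Finset.disjoint_biUnion_left]
      intro K hK
      exact (Finset.disjoint_filter_filter (hB.disT K hK).symm)
  omega

end Pool.Agent.Helper5.FRB
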