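import Pool.Agent.Helper5.FRB.Cert

/-!
# Two perfect matchings of a cubic graph: the certificate theorem
-/

set_option autoImplicit false

namespace Pool.Agent.Helper5.FRB

open Finset

variable {V : Type} [Fintype V] [DecidableEq V]

open Classical in
theorem certificate (G : SimpleGraph V) [DecidableRel G.Adj] (hG : G.IsRegularOfDegree 3)
    (M₁ M₂ : G.Subgraph) (h₁ : M₁.IsPerfectMatching) (h₂ : M₂.IsPerfectMatching)
    (hno : ¬ ∃ M₃ : G.Subgraph, M₃.IsPerfectMatching ∧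
      ∀ e, ¬ (e ∈ M₁.edgeSet ∧ e ∈ M₂.edgeSet ∧ e ∈ M₃.edgeSet)) :
    ∃ Q : Finset (Finset V),
      (∀ K ∈ Q, Odd K.card ∧ ((∀ x ∈ K, ∀ y ∉ K, G.Adj x y → M₁.Adj x y) ∨
        ∀ x ∈ K, ∀ y ∉ K, G.Adj x y → M₂.Adj x y)) ∧
      (∀ K ∈ Q, ∀ K' ∈ Q, K ≠ K' → Disjoint K K') ∧
      ∀ M : G.Subgraph, (M = M₁ ∨ M = M₂) →
        4 + ∑ K ∈ Q, cutN G (fun x y => ¬ M.Adj x y) K ≤ 2 * Q.card ∧
        2 + ∑ K ∈ Q, (cutN G (fun x y => ¬ M.Adj x y) K +
          {C : (G.deleteEdges (M₁.edgeSet ∪ M₂.edgeSet)).ConnectedComponent |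
            Odd C.supp.ncard ∧ C.supp ⊆ (K : Set V)}.ncard) ≤
          {C : (G.deleteEdges (M₁.edgeSet ∪ M₂.edgeSet)).ConnectedComponent |
            Odd C.supp.ncard}.ncard + Q.card := by
  have hno' : ¬ ∃ N : G.Subgraph, N.IsPerfectMatching ∧
      ∀ x y, N.Adj x y → ¬ (M₁.Adj x y ∧ M₂.Adj x y) := by
    rintro ⟨N, hN, hN'⟩
    apply hno
    refine ⟨N, hN, fun e he => ?_⟩
    induction e using Sym2.ind with
    | _ a b =>
      simp only [SimpleGraph.Subgraph.mem_edgeSet] at he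
      exact hN' a b he.2.2 ⟨he.1, he.2.1⟩
  obtain ⟨T, Q, hB⟩ := exists_barrier G (fun x y => M₁.Adj x y ∧ M₂.Adj x y)
    (fun x y h => ⟨h.1.symm, h.2.symm⟩) h₁.even_card hno'
  set Q' := Q.filter fun K => (∀ x ∈ K, ∀ y ∉ K, G.Adj x y → M₁.Adj x y) ∨
    ∀ x ∈ K, ∀ y ∉ K, G.Adj x y → M₂.Adj x y with hQ'
  have hm : ∀ K, K ∈ Q' ↔ K ∈ Q ∧ ((∀ x ∈ K, ∀ y ∉ K, G.Adj x y → M₁.Adj x y) ∨
      ∀ x ∈ K, ∀ y ∉ K, G.Adj x y → M₂.Adj x y) := by
    intro K; rw [hQ', Finset.mem_filter]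
  have hs : Q' ⊆ Q := fun K hK => ((hm K).1 hK).1
  have hHadj : ∀ x y, (G.deleteEdges (M₁.edgeSet ∪ M₂.edgeSet)).Adj x y ↔
      G.Adj x y ∧ ¬ M₁.Adj x y ∧ ¬ M₂.Adj x y := by
    intro x y
    rw [SimpleGraph.deleteEdges_adj]
    constructor
    · rintro ⟨ha, hb⟩
      exact ⟨ha, fun h => hb (Or.inl h), fun h => hb (Or.inr h)⟩
    · rintro ⟨ha, hb, hc⟩
      refine ⟨ha, fun h => ?_⟩
      rcases h with h | h
      · exact hb h
      · exact hc h
  obtain ⟨q, hq, huniq⟩ := near (G.deleteEdges (M₁.edgeSet ∪ M₂.edgeSet)) (by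
    intro x a b c ha hb hc
    by_contra hne
    push Not at hne
    rw [hHadj] at ha hb hc
    have h3 : ({a, b, c} : Finset V) ⊆ univ.filter fun y => G.Adj x y ∧ ¬ M₁.Adj x y := by
      intro z hz
      simp only [Finset.mem_insert, Finset.mem_singleton] at hz
      rw [Finset.mem_filter]
      rcases hz with rfl | rfl | rfl
      · exact ⟨Finset.mem_univ _, ha.1, ha.2.1⟩
      · exact ⟨Finset.mem_univ _, hb.1, hb.2.1⟩
      · exact ⟨Finset.mem_univ _, hc.1, hc.2.1⟩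
    have h4 := Finset.card_le_card h3
    rw [Finset.card_eq_three.2 ⟨a, b, c, hne.1, hne.2.1, hne.2.2, rfl⟩] at h4
    have h5 := co_deg hG h₁ x
    rw [← Finset.card_filter] at h5
    have h6 : (univ.filter fun y => G.Adj x y ∧ ¬ M₁.Adj x y).card = 2 := by
      convert h5
    omega)
  have hqadj : ∀ x, q x ≠ x → G.Adj x (q x) ∧ ¬ M₁.Adj x (q x) ∧ ¬ M₂.Adj x (q x) := by
    intro x hx
    exact (hHadj _ _).1 (hq.2 x hx)
  have hcl : ∀ K ∈ Q', ∀ x ∈ K, ∀ y, (G.deleteEdges (M₁.edgeSet ∪ M₂.edgeSet)).Adj x y →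
      y ∈ K := by
    intro K hK x hx y hxy
    rw [hHadj] at hxy
    by_contra hy
    rcases ((hm K).1 hK).2 with h | h
    · exact hxy.2.1 (h x hx y hy hxy.1)
    · exact hxy.2.2 (h x hx y hy hxy.1)
  have hclq : ∀ K ∈ Q', ∀ x ∈ K, q x ∈ K := by
    intro K hK x hx
    by_cases h : q x = x
    · rw [h]; exact hx
    · exact hcl K hK x hx _ (hq.2 x h)
  have hfixK : ∀ K ∈ Q', (K.filter fun x => q x = x).card =
      {C : (G.deleteEdges (M₁.edgeSet ∪ M₂.edgeSet)).ConnectedComponent |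
        Odd C.supp.ncard ∧ C.supp ⊆ (K : Set V)}.ncard :=
    fun K hK => fixed_eq _ q hq huniq K (hcl K hK)
  have hfix : (univ.filter fun x => q x = x).card =
      {C : (G.deleteEdges (M₁.edgeSet ∪ M₂.edgeSet)).ConnectedComponent |
        Odd C.supp.ncard}.ncard := by
    rw [fixed_eq _ q hq huniq univ (fun _ _ y _ => mem_univ y)]
    congr 1
    ext C
    simp
  have hcard := hB.card
  refine ⟨Q', fun K hK => ⟨hB.odd K (hs hK), ((hm K).1 hK).2⟩,
    fun K hK K' hK' h => hB.dis K (hs hK) K' (hs hK') h, ?_⟩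
  have key : ∀ (M M' : G.Subgraph), M.IsPerfectMatching →
      (∀ x y, (M₁.Adj x y ∧ M₂.Adj x y) → M.Adj x y) →
      (∀ x, q x ≠ x → G.Adj x (q x) ∧ ¬ M.Adj x (q x) ∧ ¬ M'.Adj x (q x)) →
      (∀ K ∈ Q, K ∉ Q' → ¬ ∀ x ∈ K, ∀ y ∉ K, G.Adj x y → M.Adj x y) →
        4 + ∑ K ∈ Q', cutN G (fun x y => ¬ M.Adj x y) K ≤ 2 * Q'.card ∧
        2 + ∑ K ∈ Q', (cutN G (fun x y => ¬ M.Adj x y) K +
          {C : (G.deleteEdges (M₁.edgeSet ∪ M₂.edgeSet)).ConnectedComponent |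
            Odd C.supp.ncard ∧ C.supp ⊆ (K : Set V)}.ncard) ≤
          {C : (G.deleteEdges (M₁.edgeSet ∪ M₂.edgeSet)).ConnectedComponent |
            Odd C.supp.ncard}.ncard + Q'.card := by
    intro M M' hM hJM hqa hnK
    constructor
    · have h3 := weight_one (M' := M') hG hM hJM hB
      have h4 : ∀ K ∈ Q, 2 + (if K ∈ Q' then cutN G (fun x y => ¬ M.Adj x y) K else 0) ≤
          cutN G (fun x y => ¬ M.Adj x y) K + (if K ∈ Q' then 2 else 0) := by
        intro K hK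
        by_cases hk : K ∈ Q'
        · rw [if_pos hk, if_pos hk]
          omega
        · rw [if_neg hk, if_neg hk]
          have := two_le_cut hG hM (hnK K hK hk)
          omega
      have h5 := Finset.sum_le_sum h4
      rw [Finset.sum_add_distrib, Finset.sum_add_distrib, Finset.sum_ite_mem,
        Finset.inter_eq_right.2 hs, Finset.sum_ite_mem, Finset.inter_eq_right.2 hs,
        Finset.sum_const, Finset.sum_const, smul_eq_mul, smul_eq_mul] at h5
      omega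
    · have h3 := near_sum (M := M) (M' := M') (fun y => by convert co_deg hG hM y)
        (fun K => cutN_parity_pm hG hM K) hJM hB q hq.1 hqa Q' hs hclq
      have h4 : ∑ K ∈ Q', (cutN G (fun x y => ¬ M.Adj x y) K +
          {C : (G.deleteEdges (M₁.edgeSet ∪ M₂.edgeSet)).ConnectedComponent |
            Odd C.supp.ncard ∧ C.supp ⊆ (K : Set V)}.ncard) =
          ∑ K ∈ Q', (cutN G (fun x y => ¬ M.Adj x y) K +
            (K.filter fun x => q x = x).card) :=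
        Finset.sum_congr rfl fun K hK => by rw [hfixK K hK]
      rw [← hfix, h4]
      omega
  intro M hM
  rcases hM with rfl | rfl
  · exact key M M₂ h₁ (fun x y h => h.1) hqadj
      (fun K hK hK' h => hK' ((hm K).2 ⟨hK, Or.inl h⟩))
  · exact key M M₁ h₂ (fun x y h => h.2)
      (fun x hx => ⟨(hqadj x hx).1, (hqadj x hx).2.2, (hqadj x hx).2.1⟩)
      (fun K hK hK' h => hK' ((hm K).2 ⟨hK, Or.inr h⟩))

end Pool.Agent.Helper5.FRB
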