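import Pool.Agent.Helper89.FR.TUT

/-!
# Fan-Raspaud from weights: the barrier lemma

If a graph `G` with an even number of vertices has no perfect matching without the edges of `J`,
there is a family `Q` of pairwise disjoint odd sets such that, for all weights `W` of the edges of
`G` with the same sum `D` at all vertices, the sum over `Q` of `D` minus the weight of the cut is at
least `2 * D` minus twice the weight of `J`.
-/

set_option autoImplicit false

namespace Pool.Agent.Helper5.FRB

open Finset Pool.Agent.Helper55.FR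

variable {V : Type} [Fintype V] [DecidableEq V]

/-- The weight of the edges of `G` which leave `K`. -/
def cutW (G : SimpleGraph V) [DecidableRel G.Adj] (W : V → V → ℕ) (K : Finset V) : ℕ :=
  ∑ x ∈ K, ∑ y ∈ Kᶜ, if G.Adj x y then W x y else 0

/-- A fixed point free involution along the edges of `G` is a perfect matching. -/
lemma pm_of_inv (G : SimpleGraph V) (q : V → V) (hqq : ∀ x, q (q x) = x)
    (hadj : ∀ x, G.Adj x (q x)) :
    ∃ N : G.Subgraph, N.IsPerfectMatching ∧ ∀ x y, N.Adj x y ↔ q x = y := by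
  let N : G.Subgraph :=
    { verts := Set.univ
      Adj := fun x y => q x = y
      adj_sub := by
        intro x y h
        have := hadj x
        rwa [h] at this
      edge_vert := fun _ => Set.mem_univ _
      symm := ⟨by
        intro x y h
        rw [← h, hqq]⟩ }
  refine ⟨N, ?_, fun x y => Iff.rfl⟩
  rw [SimpleGraph.Subgraph.isPerfectMatching_iff]
  intro x
  exact ⟨q x, rfl, fun y hy => Eq.symm (show q x = y from hy)⟩

lemma sum_disjoint_le {Q : Finset (Finset V)}
    (hd : ∀ K ∈ Q, ∀ K' ∈ Q, K ≠ K' → Disjoint K K') (f : V → ℕ) :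
    ∑ K ∈ Q, ∑ x ∈ K, f x ≤ ∑ x, f x := by
  have h1 : ∑ K ∈ Q, ∑ x ∈ K, f x = ∑ x ∈ Q.biUnion id, f x := by
    rw [Finset.sum_biUnion]
    · rfl
    · intro K hK K' hK' hne
      exact hd K hK K' hK' hne
  rw [h1]
  exact Finset.sum_le_sum_of_subset (Finset.subset_univ _)

theorem core (G : SimpleGraph V) [DecidableRel G.Adj] (J : V → V → Prop) [DecidableRel J]
    (hJ : ∀ x y, J x y → J y x) (heven : Even (Fintype.card V))
    (hno : ¬ ∃ N : G.Subgraph, N.IsPerfectMatching ∧ ∀ x y, N.Adj x y → ¬ J x y) :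
    ∃ Q : Finset (Finset V), (∀ K ∈ Q, Odd K.card) ∧
      (∀ K ∈ Q, ∀ K' ∈ Q, K ≠ K' → Disjoint K K') ∧
      ∀ (W : V → V → ℕ) (D : ℕ), (∀ x y, W x y = W y x) →
        (∀ x, ∑ y, (if G.Adj x y then W x y else 0) = D) →
        (2 : ℤ) * D ≤ (∑ K ∈ Q, ((D : ℤ) - cutW G W K)) +
          ∑ x, ∑ y, (if G.Adj x y ∧ J x y then W x y else 0 : ℕ) := by
  classical
  have hPM : ¬ PMf (fun x y => G.Adj x y ∧ ¬ J x y) := by
    rintro ⟨q, hqq, -, hr⟩
    obtain ⟨N, hN, hN'⟩ := pm_of_inv G q hqq (fun x => (hr x).1)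
    refine hno ⟨N, hN, fun x y h => ?_⟩
    rw [hN'] at h
    rw [← h]
    exact (hr x).2
  obtain ⟨T, Q, hC, hcard⟩ := Pool.Agent.Helper89.FR.tut V (fun x y => G.Adj x y ∧ ¬ J x y)
    (fun x y h => ⟨h.1.symm, fun h' => h.2 (hJ _ _ h')⟩) (fun x h => h.1.ne rfl) hPM
  set Qo := Q.filter fun K => Odd K.card with hQo
  have hdQ : ∀ K ∈ Qo, ∀ K' ∈ Qo, K ≠ K' → Disjoint K K' := by
    intro K hK K' hK' hne
    exact hC.kK K (Finset.mem_filter.1 hK).1 K' (Finset.mem_filter.1 hK').1 hne
  -- parity
  have hVc : Fintype.card V = T.card + ∑ K ∈ Q, K.card := by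
    have h1 : (Finset.univ : Finset V) = T ∪ Q.biUnion id := by
      ext x
      simp only [mem_univ, mem_union, mem_biUnion, id, true_iff]
      by_cases hx : x ∈ T
      · exact Or.inl hx
      · exact Or.inr (hC.cov x hx)
    have h2 : Disjoint T (Q.biUnion id) := by
      rw [Finset.disjoint_biUnion_right]
      exact fun K hK => hC.dis K hK
    rw [← Finset.card_univ, h1, Finset.card_union_of_disjoint h2, Finset.card_biUnion]
    · rfl
    · intro K hK K' hK' hne
      exact hC.kK K hK K' hK' hne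
  have hpar : (∑ K ∈ Q, K.card) % 2 = Qo.card % 2 := by
    rw [Finset.card_filter, Finset.sum_nat_mod, Finset.sum_nat_mod Q 2 (fun K => if Odd K.card then 1 else 0)]
    congr 1
    apply Finset.sum_congr rfl
    intro K _
    by_cases h : Odd K.card
    · rw [if_pos h, Nat.odd_iff.1 h]
    · rw [if_neg h, Nat.even_iff.1 (Nat.not_odd_iff_even.1 h)]
  have hcard2 : T.card + 2 ≤ Qo.card := by
    rw [Nat.even_iff] at heven
    omega
  refine ⟨Qo, fun K hK => (Finset.mem_filter.1 hK).2, hdQ, fun W D hW hD => ?_⟩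
  have hcut : ∀ K ∈ Qo, cutW G W K ≤
      ∑ x ∈ K, ((∑ y ∈ T, if G.Adj x y then W x y else 0) +
        ∑ y, if G.Adj x y ∧ J x y then W x y else 0) := by
    intro K hK
    unfold cutW
    apply Finset.sum_le_sum
    intro x hx
    have hKT : Disjoint T K := hC.dis K (Finset.mem_filter.1 hK).1
    calc ∑ y ∈ Kᶜ, (if G.Adj x y then W x y else 0)
        ≤ ∑ y ∈ Kᶜ, ((if y ∈ T then (if G.Adj x y then W x y else 0) else 0) +
            (if G.Adj x y ∧ J x y then W x y else 0)) := by
          apply Finset.sum_le_sum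
          intro y hy
          by_cases h1 : G.Adj x y
          · by_cases h2 : J x y
            · simp [h1, h2]
            · have := hC.cl K (Finset.mem_filter.1 hK).1 x hx y ⟨h1, h2⟩
              rcases this with h3 | h3
              · exact absurd h3 (Finset.mem_compl.1 hy)
              · simp [h1, h2, h3]
          · simp [h1]
      _ ≤ ∑ y, ((if y ∈ T then (if G.Adj x y then W x y else 0) else 0) +
            (if G.Adj x y ∧ J x y then W x y else 0)) :=
          Finset.sum_le_sum_of_subset (Finset.subset_univ _)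
      _ = _ := by
          rw [Finset.sum_add_distrib]
          congr 1
          rw [← Finset.sum_filter]
          congr 1
          ext y
          simp
  have hsum : ∑ K ∈ Qo, cutW G W K ≤ T.card * D +
      ∑ x, ∑ y, (if G.Adj x y ∧ J x y then W x y else 0) := by
    calc ∑ K ∈ Qo, cutW G W K ≤ ∑ K ∈ Qo, ∑ x ∈ K, ((∑ y ∈ T, if G.Adj x y then W x y else 0) +
        ∑ y, if G.Adj x y ∧ J x y then W x y else 0) := Finset.sum_le_sum hcut
      _ ≤ ∑ x, ((∑ y ∈ T, if G.Adj x y then W x y else 0) +
        ∑ y, if G.Adj x y ∧ J x y then W x y else 0) := sum_disjoint_le hdQ _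
      _ = _ := by
          rw [Finset.sum_add_distrib]
          congr 1
          rw [Finset.sum_comm]
          rw [← smul_eq_mul, ← Finset.sum_const]
          apply Finset.sum_congr rfl
          intro y _
          rw [← hD y]
          apply Finset.sum_congr rfl
          intro x _
          rw [hW x y]
          simp only [G.adj_comm x y]
  have h1 : (∑ K ∈ Qo, ((D : ℤ) - cutW G W K)) = Qo.card * D - ((∑ K ∈ Qo, cutW G W K : ℕ) : ℤ) := by
    rw [Finset.sum_sub_distrib, Finset.sum_const, nsmul_eq_mul]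
    push_cast
    rfl
  rw [h1]
  have h2 : ((∑ K ∈ Qo, cutW G W K : ℕ) : ℤ) ≤ ((T.card * D +
      ∑ x, ∑ y, (if G.Adj x y ∧ J x y then W x y else 0) : ℕ) : ℤ) := by
    exact_mod_cast hsum
  have h3 : ((T.card : ℤ) + 2) * D ≤ Qo.card * D := by
    apply mul_le_mul_of_nonneg_right _ (by positivity)
    exact_mod_cast hcard2
  push_cast at h2 ⊢
  linarith

end Pool.Agent.Helper5.FRB
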