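import Pool.Agent.Helper5.FRB.Core

/-!
# Cuts and perfect matchings in cubic graphs
-/

set_option autoImplicit false

namespace Pool.Agent.Helper5.FRB

open Finset

variable {V : Type} [Fintype V] [DecidableEq V]

/-- The number of the edges of `G` with property `P` which leave `K`. -/
noncomputable def cutN (G : SimpleGraph V) (P : V → V → Prop) (K : Finset V) : ℕ :=
  open Classical in ∑ x ∈ K, ∑ y ∈ Kᶜ, if G.Adj x y ∧ P x y then 1 else 0

open Classical in
/-- The number of the edges of `G` with property `P` which leave `K` has the parity of the sum of the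
degrees. -/
lemma cutN_parity (G : SimpleGraph V) (P : V → V → Prop) (hP : ∀ x y, P x y → P y x) (K : Finset V) :
    Even (cutN G P K + ∑ x ∈ K, ∑ y, if G.Adj x y ∧ P x y then 1 else 0) := by
  let H : SimpleGraph V :=
    { Adj := fun x y => x ∈ K ∧ y ∈ K ∧ G.Adj x y ∧ P x y
      symm := ⟨fun x y h => ⟨h.2.1, h.1, h.2.2.1.symm, hP _ _ h.2.2.2⟩⟩
      loopless := ⟨fun x h => h.2.2.1.ne rfl⟩ }
  have hH : ∀ x y, H.Adj x y ↔ x ∈ K ∧ y ∈ K ∧ G.Adj x y ∧ P x y := fun x y => Iff.rfl
  have h1 := H.sum_degrees_eq_twice_card_edges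
  have h2 : ∑ v, H.degree v = ∑ x ∈ K, ∑ y ∈ K, if G.Adj x y ∧ P x y then 1 else 0 := by
    have h3 : ∀ v, H.degree v = if v ∈ K then ∑ y ∈ K, (if G.Adj v y ∧ P v y then 1 else 0) else 0 := by
      intro v
      have h4 : H.degree v = (Finset.univ.filter fun y => H.Adj v y).card := by
        rw [← SimpleGraph.card_neighborFinset_eq_degree]
        congr 1
        ext y
        simp [hH]
      rw [h4]
      by_cases hv : v ∈ K
      · rw [if_pos hv, ← Finset.card_filter]
        congr 1
        ext y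
        simp [hH, hv]
      · rw [if_neg hv]
        simp [hH, hv]
    rw [Finset.sum_congr rfl fun v _ => h3 v, ← Finset.sum_filter]
    congr 1
    ext y
    simp
  have h5 : ∑ x ∈ K, ∑ y, (if G.Adj x y ∧ P x y then 1 else 0) =
      (∑ x ∈ K, ∑ y ∈ K, if G.Adj x y ∧ P x y then 1 else 0) + cutN G P K := by
    unfold cutN
    rw [← Finset.sum_add_distrib]
    apply Finset.sum_congr rfl
    intro x _
    rw [Finset.sum_add_sum_compl]
  rw [h5, ← h2, h1]
  exact ⟨cutN G P K + H.edgeFinset.card, by ring⟩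

lemma cutN_mono (G : SimpleGraph V) {P P' : V → V → Prop} (h : ∀ x y, G.Adj x y → P x y → P' x y)
    (K : Finset V) : cutN G P K ≤ cutN G P' K := by
  unfold cutN
  apply Finset.sum_le_sum
  intro x _
  apply Finset.sum_le_sum
  intro y _
  split_ifs with h1 h2
  · exact le_rfl
  · exact absurd ⟨h1.1, h _ _ h1.1 h1.2⟩ h2
  · exact Nat.zero_le _
  · exact le_rfl

lemma cutN_pos (G : SimpleGraph V) {P : V → V → Prop} {K : Finset V} {x y : V} (hx : x ∈ K)
    (hy : y ∉ K) (h : G.Adj x y) (hP : P x y) : 0 < cutN G P K := by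
  classical
  unfold cutN
  apply Finset.sum_pos'
  · intro i _
    exact Nat.zero_le _
  · refine ⟨x, hx, ?_⟩
    apply Finset.sum_pos'
    · intro i _
      exact Nat.zero_le _
    · exact ⟨y, Finset.mem_compl.2 hy, by simp [h, hP]⟩

lemma cutN_eq_card (G : SimpleGraph V) [DecidableRel G.Adj] (K : Finset V) :
    cutN G (fun _ _ => True) K = ((K ×ˢ Kᶜ).filter fun p => G.Adj p.1 p.2).card := by
  classical
  unfold cutN
  rw [Finset.card_filter, Finset.sum_product]
  apply Finset.sum_congr rfl
  intro x _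
  apply Finset.sum_congr rfl
  intro y _
  simp

variable {G : SimpleGraph V} [DecidableRel G.Adj]

open Classical in
lemma sum_adj_eq (x : V) (P : V → Prop) :
    (∑ y, if G.Adj x y ∧ P y then 1 else 0 : ℕ) = ((G.neighborFinset x).filter P).card := by
  rw [← Finset.card_filter]
  congr 1
  ext y
  simp

open Classical in
lemma pm_deg {M : G.Subgraph} (hM : M.IsPerfectMatching) (x : V) :
    (∑ y, if G.Adj x y ∧ M.Adj x y then 1 else 0 : ℕ) = 1 := by
  rw [← Finset.card_filter]
  rw [SimpleGraph.Subgraph.isPerfectMatching_iff] at hM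
  obtain ⟨z, hz, hz'⟩ := hM x
  rw [Finset.card_eq_one]
  refine ⟨z, ?_⟩
  ext y
  simp only [mem_filter, mem_univ, true_and, mem_singleton]
  constructor
  · rintro ⟨-, h⟩
    exact hz' y h
  · rintro rfl
    exact ⟨hz.adj_sub, hz⟩

open Classical in
lemma cubic_deg (hG : G.IsRegularOfDegree 3) (x : V) :
    (∑ y, if G.Adj x y then 1 else 0 : ℕ) = 3 := by
  rw [← hG x, ← SimpleGraph.card_neighborFinset_eq_degree, ← Finset.card_filter]
  congr 1
  ext y
  simp

open Classical in
lemma co_deg (hG : G.IsRegularOfDegree 3) {M : G.Subgraph} (hM : M.IsPerfectMatching) (x : V) :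
    (∑ y, if G.Adj x y ∧ ¬ M.Adj x y then 1 else 0 : ℕ) = 2 := by
  have h1 := cubic_deg hG x
  have h2 := pm_deg hM x
  have h3 : (∑ y, if G.Adj x y then 1 else 0 : ℕ) =
      (∑ y, if G.Adj x y ∧ M.Adj x y then 1 else 0) +
      ∑ y, if G.Adj x y ∧ ¬ M.Adj x y then 1 else 0 := by
    rw [← Finset.sum_add_distrib]
    apply Finset.sum_congr rfl
    intro y _
    by_cases ha : G.Adj x y <;> by_cases hb : M.Adj x y <;> simp [ha, hb]
  omega

/-- A cut not contained in the perfect matching `M` has at least two edges outside `M`. -/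
lemma two_le_cut (hG : G.IsRegularOfDegree 3) {M : G.Subgraph} (hM : M.IsPerfectMatching)
    {K : Finset V} (h : ¬ ∀ x ∈ K, ∀ y ∉ K, G.Adj x y → M.Adj x y) :
    2 ≤ cutN G (fun x y => ¬ M.Adj x y) K := by
  classical
  push Not at h
  obtain ⟨x, hx, y, hy, hxy, hn⟩ := h
  have h1 : 0 < cutN G (fun x y => ¬ M.Adj x y) K := cutN_pos G hx hy hxy hn
  have h2 := cutN_parity G (fun x y => ¬ M.Adj x y) (fun x y h h' => h h'.symm) K
  have h3 : Even (cutN G (fun x y => ¬ M.Adj x y) K + ∑ x ∈ K, 2) := by
    convert h2 using 2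
    apply Finset.sum_congr rfl
    intro x _
    symm
    convert co_deg hG hM x
  rw [Finset.sum_const, smul_eq_mul, Nat.even_iff] at h3
  omega

/-- A cubic graph with a perfect matching has an even number of vertices. -/
lemma even_card {M : G.Subgraph} (hM : M.IsPerfectMatching) : Even (Fintype.card V) := by
  classical
  have h := hM.even_card
  exact h

end Pool.Agent.Helper5.FRB
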