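import Mathlib

/-!
# Near-perfect matchings of graphs with degrees at most two
-/

set_option autoImplicit false

namespace Pool.Agent.Helper5.FRB

open Finset

variable {V : Type} [Fintype V] [DecidableEq V]

/-- `q` is a matching of `H`, as an involution; the fixed points are the vertices left over. -/
def IsInv (H : SimpleGraph V) (q : V → V) : Prop :=
  (∀ x, q (q x) = x) ∧ ∀ x, q x ≠ x → H.Adj x (q x)

lemma match_two (H : SimpleGraph V) (q : V → V) (hq : IsInv H q) {x y : V} (hx : q x = x)
    (hxy : H.Adj x y) :
    ∃ q' : V → V, IsInv H q' ∧ q' x = y ∧
      (∀ z, q' z = z ↔ (q z = z ∧ z ≠ x ∧ z ≠ y) ∨ (z = q y ∧ z ≠ y)) := by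
  have hne : x ≠ y := hxy.ne
  have hqyx : q y ≠ x := by
    intro h
    have := hq.1 y
    rw [h, hx] at this
    exact hne this
  refine ⟨fun z => if z = x then y else if z = y then x else if z = q y then z else q z,
    ⟨?_, ?_⟩, by simp, ?_⟩
  · intro z
    by_cases h1 : z = x
    · subst h1
      simp [hne.symm]
    · by_cases h2 : z = y
      · subst h2
        simp [h1]
      · by_cases h3 : z = q y
        · simp [h1, h2, ← h3]
        · have h4 : q z ≠ x := by
            intro h
            have := hq.1 z
            rw [h, hx] at this
            exact h1 this.symm
          have h5 : q z ≠ y := by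
            intro h
            have := hq.1 z
            rw [h] at this
            exact h3 this.symm
          have h6 : q z ≠ q y := by
            intro h
            have := hq.1 z
            rw [h, hq.1] at this
            exact h2 this.symm
          simp [h1, h2, h3, h4, h5, h6, hq.1]
  · intro z
    by_cases h1 : z = x
    · subst h1
      intro _
      simpa using hxy
    · by_cases h2 : z = y
      · subst h2
        intro _
        simp only [h1, if_false, if_true]
        exact hxy.symm
      · by_cases h3 : z = q y
        · simp [h1, h2, ← h3]
        · simp only [h1, h2, h3, if_false]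
          exact hq.2 z
  · intro z
    by_cases h1 : z = x
    · subst h1
      simp [hne.symm, hne, Ne.symm hqyx]
    · by_cases h2 : z = y
      · subst h2
        simp [h1, Ne.symm h1]
      · by_cases h3 : z = q y
        · simp [h1, h2, ← h3]
        · simp [h1, h2, h3]

/-- A graph with all degrees at most two has a matching with at most one vertex left over in each
component. -/
theorem near (H : SimpleGraph V) (hdeg : ∀ x a b c : V, H.Adj x a → H.Adj x b → H.Adj x c →
      a = b ∨ a = c ∨ b = c) :
    ∃ q : V → V, IsInv H q ∧ ∀ x y, q x = x → q y = y → H.Reachable x y → x = y := by
  classical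
  -- minimal number of fixed points
  have hex : ∃ k, ∃ q : V → V, IsInv H q ∧ (univ.filter fun x => q x = x).card = k :=
    ⟨_, id, ⟨fun x => rfl, fun x h => absurd rfl h⟩, rfl⟩
  obtain ⟨q₀, hq₀, hk₀⟩ := Nat.find_spec hex
  set k := Nat.find hex with hk
  have hmin : ∀ q : V → V, IsInv H q → k ≤ (univ.filter fun x => q x = x).card := by
    intro q hq
    exact Nat.find_min' hex ⟨q, hq, rfl⟩
  -- no two leftover vertices at distance d, by strong induction
  have key : ∀ d : ℕ, ∀ q : V → V, IsInv H q → (univ.filter fun x => q x = x).card = k →
      ∀ x y, q x = x → q y = y → H.Reachable x y → H.dist x y = d → x = y := by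
    intro d
    induction d using Nat.strong_induction_on with
    | _ d ih =>
      intro q hq hqk x y hx hy hr hd
      by_contra hne
      have hd0 : 0 < H.dist x y := hr.pos_dist_of_ne hne
      have hxm : x ∈ univ.filter fun z => q z = z := Finset.mem_filter.2 ⟨Finset.mem_univ _, hx⟩
      obtain ⟨p, hp⟩ := hr.exists_walk_length_eq_dist
      cases p with
      | nil => exact hne rfl
      | @cons _ a _ hxa p' =>
        rw [SimpleGraph.Walk.length_cons] at hp
        have hda : H.dist a y + 1 ≤ H.dist x y := by
          have := SimpleGraph.dist_le p'
          omega
        obtain ⟨q', hq', hq'x, hfix⟩ := match_two H q hq hx hxa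
        by_cases ha : q a = a
        · -- fewer fixed points
          have h1 := hmin q' hq'
          have h2 : (univ.filter fun z => q' z = z) ⊆ (univ.filter fun z => q z = z).erase x := by
            intro z hz
            rw [Finset.mem_filter] at hz
            rcases (hfix z).1 hz.2 with h | h
            · rw [Finset.mem_erase, Finset.mem_filter]
              exact ⟨h.2.1, Finset.mem_univ _, h.1⟩
            · exact absurd (h.1.trans ha) h.2
          have h3 := Finset.card_le_card h2
          rw [Finset.card_erase_of_mem hxm, hqk] at h3
          have h4 : 0 < k := by
            rw [← hqk, Finset.card_pos]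
            exact ⟨x, Finset.mem_filter.2 ⟨Finset.mem_univ _, hx⟩⟩
          omega
        · -- slide
          have hay : a ≠ y := fun h => ha (h ▸ hy)
          cases p' with
          | nil => exact hay rfl
          | @cons _ b _ hab p'' =>
            rw [SimpleGraph.Walk.length_cons] at hp
            have hdb : H.dist b y + 2 ≤ H.dist x y := by
              have := SimpleGraph.dist_le p''
              omega
            have hbx : b ≠ x := by
              rintro rfl
              omega
            have hqa : q a = b := by
              have h1 := hq.2 a ha
              have h2 : q a ≠ x := by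
                intro h
                have := hq.1 a
                rw [h, hx] at this
                exact hxa.ne this
              rcases hdeg a x b (q a) hxa.symm hab h1 with h | h | h
              · exact absurd h.symm hbx
              · exact absurd h.symm h2
              · exact h.symm
            have hcard : (univ.filter fun z => q' z = z).card ≤ k := by
              have h2 : (univ.filter fun z => q' z = z) ⊆
                  insert b ((univ.filter fun z => q z = z).erase x) := by
                intro z hz
                rw [Finset.mem_filter] at hz
                rcases (hfix z).1 hz.2 with h | h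
                · rw [Finset.mem_insert, Finset.mem_erase, Finset.mem_filter]
                  exact Or.inr ⟨h.2.1, Finset.mem_univ _, h.1⟩
                · rw [Finset.mem_insert]
                  exact Or.inl (h.1.trans hqa)
              have h3 := Finset.card_le_card h2
              have h5 := Finset.card_insert_le b ((univ.filter fun z => q z = z).erase x)
              rw [Finset.card_erase_of_mem hxm, hqk] at h5
              have h4 : 0 < k := by
                rw [← hqk, Finset.card_pos]
                exact ⟨x, Finset.mem_filter.2 ⟨Finset.mem_univ _, hx⟩⟩
              omega
            have hcard' : (univ.filter fun z => q' z = z).card = k :=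
              le_antisymm hcard (hmin q' hq')
            have hb : q' b = b := (hfix b).2 (Or.inr ⟨hqa.symm, hab.ne.symm⟩)
            have hy' : q' y = y := (hfix y).2 (Or.inl ⟨hy, Ne.symm hne, hay.symm⟩)
            have hby : b = y := ih (H.dist b y) (by omega) q' hq' hcard' b y hb hy'
              ⟨p''⟩ rfl
            -- then `y` is matched to `a`
            rw [hby] at hqa
            have := hq.1 a
            rw [hqa, hy] at this
            exact hay this.symm
  exact ⟨q₀, hq₀, fun x y hx hy hr => key _ q₀ hq₀ hk₀ x y hx hy hr rfl⟩

end Pool.Agent.Helper5.FRB
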