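import Pool.Agent.Helper5.FRB.Cuts

/-!
# Barriers and odd circuits
-/

set_option autoImplicit false

namespace Pool.Agent.Helper5.FRB

open Finset

variable {V : Type} [Fintype V] [DecidableEq V]

/-- An odd set closed under adjacency contains an odd component. -/
lemma exists_odd_component (H : SimpleGraph V) (K : Finset V) (hK : Odd K.card)
    (hcl : ∀ x ∈ K, ∀ y, H.Adj x y → y ∈ K) :
    ∃ C : H.ConnectedComponent, Odd C.supp.ncard ∧ C.supp ⊆ (K : Set V) := by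
  classical
  haveI : Fintype H.ConnectedComponent := Fintype.ofFinite _
  have h1 : K.card = ∑ C : H.ConnectedComponent, (K.filter fun x => H.connectedComponentMk x = C).card := by
    exact Finset.card_eq_sum_card_fiberwise (f := fun x => H.connectedComponentMk x)
      (fun x _ => Finset.mem_coe.2 (Finset.mem_univ _))
  have h2 : ∃ C : H.ConnectedComponent, Odd (K.filter fun x => H.connectedComponentMk x = C).card := by
    by_contra hno
    push Not at hno
    rw [h1] at hK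
    have : Even (∑ C : H.ConnectedComponent, (K.filter fun x => H.connectedComponentMk x = C).card) := by
      apply Finset.even_sum
      intro C _
      exact Nat.not_odd_iff_even.1 (hno C)
    exact (Nat.not_even_iff_odd.2 hK) this
  obtain ⟨C, hC⟩ := h2
  have h3 : C.supp ⊆ (K : Set V) := by
    have hne : (K.filter fun x => H.connectedComponentMk x = C).Nonempty := by
      rw [← Finset.card_pos]
      exact hC.pos
    obtain ⟨x, hx⟩ := hne
    obtain ⟨hxK, hxC⟩ := Finset.mem_filter.1 hx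
    intro y hy
    rw [SimpleGraph.ConnectedComponent.mem_supp_iff] at hy
    have hr : H.Reachable x y := by
      rw [← SimpleGraph.ConnectedComponent.eq, hxC, hy]
    obtain ⟨p⟩ := hr
    have key : ∀ (u v : V), H.Walk u v → u ∈ K → v ∈ K := by
      intro u v p
      induction p with
      | nil => exact fun h => h
      | cons h _ ih => exact fun hu => ih (hcl _ hu _ h)
    exact key x y p hxK
  refine ⟨C, ?_, h3⟩
  have h4 : C.supp = ((K.filter fun x => H.connectedComponentMk x = C : Finset V) : Set V) := by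
    ext y
    simp only [SimpleGraph.ConnectedComponent.mem_supp_iff, Finset.coe_filter, Set.mem_ofPred_eq]
    constructor
    · intro h
      exact ⟨h3 (by rw [SimpleGraph.ConnectedComponent.mem_supp_iff]; exact h), h⟩
    · exact fun h => h.2
  rw [h4, Set.ncard_coe_finset]
  exact hC

lemma family (H : SimpleGraph V) (Q : Finset (Finset V)) (hodd : ∀ K ∈ Q, Odd K.card)
    (hdis : ∀ K ∈ Q, ∀ K' ∈ Q, K ≠ K' → Disjoint K K')
    (hcl : ∀ K ∈ Q, ∀ x ∈ K, ∀ y, H.Adj x y → y ∈ K) :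
    ∃ A : Finset H.ConnectedComponent, A.card = Q.card ∧ (∀ C ∈ A, Odd C.supp.ncard) ∧
      ∀ C ∈ A, ∃ K ∈ Q, C.supp ⊆ (K : Set V) := by
  classical
  have h1 : ∀ K : {K // K ∈ Q}, ∃ C : H.ConnectedComponent,
      Odd C.supp.ncard ∧ C.supp ⊆ (K.1 : Set V) :=
    fun K => exists_odd_component H K.1 (hodd K.1 K.2) (hcl K.1 K.2)
  choose g hg1 hg2 using h1
  have hinj : Function.Injective g := by
    intro K K' h
    by_contra hne
    have hne' : K.1 ≠ K'.1 := fun h' => hne (Subtype.ext h')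
    obtain ⟨x, hx⟩ := (g K).nonempty_supp
    have h1 := hg2 K hx
    have h2 := hg2 K' (h ▸ hx)
    exact (Finset.disjoint_left.1 (hdis K.1 K.2 K'.1 K'.2 hne')) h1 h2
  refine ⟨Q.attach.image g, ?_, ?_, ?_⟩
  · rw [Finset.card_image_of_injective _ hinj, Finset.card_attach]
  · intro C hC
    obtain ⟨K, -, rfl⟩ := Finset.mem_image.1 hC
    exact hg1 K
  · intro C hC
    obtain ⟨K, -, rfl⟩ := Finset.mem_image.1 hC
    exact ⟨K.1, K.2, hg2 K⟩

/-- The weight `a` off `M₁` plus the weight `b` off `M₂`. -/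
noncomputable def wab {G : SimpleGraph V} (M₁ M₂ : G.Subgraph) (a b : ℕ) (x y : V) : ℕ :=
  open Classical in a * (if M₁.Adj x y then 0 else 1) + b * (if M₂.Adj x y then 0 else 1)

open Classical in
lemma wab_ite {G : SimpleGraph V} (M₁ M₂ : G.Subgraph) (a b : ℕ) (x y : V) :
    (if G.Adj x y then wab M₁ M₂ a b x y else 0) =
      a * (if G.Adj x y ∧ ¬ M₁.Adj x y then 1 else 0) +
        b * (if G.Adj x y ∧ ¬ M₂.Adj x y then 1 else 0) := by
  unfold wab
  by_cases h : G.Adj x y <;> by_cases h1 : M₁.Adj x y <;> by_cases h2 : M₂.Adj x y <;>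
    simp [h, h1, h2]

lemma cutW_wab {G : SimpleGraph V} [DecidableRel G.Adj] (M₁ M₂ : G.Subgraph) (a b : ℕ)
    (K : Finset V) : cutW G (wab M₁ M₂ a b) K =
      a * cutN G (fun x y => ¬ M₁.Adj x y) K + b * cutN G (fun x y => ¬ M₂.Adj x y) K := by
  classical
  unfold cutW cutN
  rw [Finset.mul_sum, Finset.mul_sum, ← Finset.sum_add_distrib]
  apply Finset.sum_congr rfl
  intro x _
  rw [Finset.mul_sum, Finset.mul_sum, ← Finset.sum_add_distrib]
  apply Finset.sum_congr rfl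
  intro y _
  convert wab_ite M₁ M₂ a b x y

lemma wab_deg {G : SimpleGraph V} [DecidableRel G.Adj] (hG : G.IsRegularOfDegree 3)
    {M₁ M₂ : G.Subgraph} (h₁ : M₁.IsPerfectMatching) (h₂ : M₂.IsPerfectMatching) (a b : ℕ) (x : V) :
    (∑ y, if G.Adj x y then wab M₁ M₂ a b x y else 0) = 2 * (a + b) := by
  classical
  have h3 : ∀ y, (if G.Adj x y then wab M₁ M₂ a b x y else 0) =
      a * (if G.Adj x y ∧ ¬ M₁.Adj x y then 1 else 0) +
        b * (if G.Adj x y ∧ ¬ M₂.Adj x y then 1 else 0) := by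
    intro y
    convert wab_ite M₁ M₂ a b x y
  rw [Finset.sum_congr rfl fun y _ => h3 y, Finset.sum_add_distrib, ← Finset.mul_sum,
    ← Finset.mul_sum]
  have h4 : (∑ y, if G.Adj x y ∧ ¬ M₁.Adj x y then 1 else 0 : ℕ) = 2 := by
    convert co_deg hG h₁ x
  have h5 : (∑ y, if G.Adj x y ∧ ¬ M₂.Adj x y then 1 else 0 : ℕ) = 2 := by
    convert co_deg hG h₂ x
  rw [h4, h5]
  ring

lemma cutN_zero {G : SimpleGraph V} {P : V → V → Prop} {K : Finset V}
    (h : ∀ x ∈ K, ∀ y ∉ K, G.Adj x y → ¬ P x y) : cutN G P K = 0 := by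
  classical
  unfold cutN
  apply Finset.sum_eq_zero
  intro x hx
  apply Finset.sum_eq_zero
  intro y hy
  rw [if_neg]
  rintro ⟨h1, h2⟩
  exact h x hx y (Finset.mem_compl.1 hy) h1 h2

lemma cutN_card (G : SimpleGraph V) [DecidableRel G.Adj] (P : V → V → Prop) [DecidableRel P]
    (K : Finset V) :
    cutN G P K = ((K ×ˢ Kᶜ).filter fun p => G.Adj p.1 p.2 ∧ P p.1 p.2).card := by
  classical
  unfold cutN
  rw [Finset.card_filter, Finset.sum_product]
  apply Finset.sum_congr rfl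
  intro x _
  apply Finset.sum_congr rfl
  intro y _
  by_cases h : G.Adj x y <;> by_cases h' : P x y <;> simp [h, h']

open Classical in
theorem odd_circuits (G : SimpleGraph V) [DecidableRel G.Adj] (hG : G.IsRegularOfDegree 3)
    (M₁ M₂ : G.Subgraph) (h₁ : M₁.IsPerfectMatching) (h₂ : M₂.IsPerfectMatching) (d₁ d₂ : ℕ)
    (hd₁ : 1 ≤ d₁)
    (hc₁ : ∀ K : Finset V, Odd K.card → (∀ x ∈ K, ∀ y ∉ K, G.Adj x y → M₁.Adj x y) →
      d₁ ≤ ((K ×ˢ Kᶜ).filter fun p => G.Adj p.1 p.2 ∧ ¬ M₂.Adj p.1 p.2).card)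
    (hc₂ : ∀ K : Finset V, Odd K.card → (∀ x ∈ K, ∀ y ∉ K, G.Adj x y → M₂.Adj x y) →
      d₂ ≤ ((K ×ˢ Kᶜ).filter fun p => G.Adj p.1 p.2 ∧ ¬ M₁.Adj p.1 p.2).card)
    (hno : ¬ ∃ M₃ : G.Subgraph, M₃.IsPerfectMatching ∧
      ∀ e, ¬ (e ∈ M₁.edgeSet ∧ e ∈ M₂.edgeSet ∧ e ∈ M₃.edgeSet)) :
    ∃ (A : Finset (G.deleteEdges M₁.edgeSet).ConnectedComponent)
      (B : Finset (G.deleteEdges M₂.edgeSet).ConnectedComponent),
      (∀ C ∈ A, Odd C.supp.ncard) ∧ (∀ C ∈ B, Odd C.supp.ncard) ∧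
      (∀ C ∈ A, ∀ C' ∈ B, Disjoint C.supp C'.supp) ∧
      ∀ a b : ℕ, 4 * (a + b) ≤
        A.card * (2 * (a + b) - b * d₁) + B.card * (2 * (a + b) - a * d₂) := by
  have hno' : ¬ ∃ N : G.Subgraph, N.IsPerfectMatching ∧
      ∀ x y, N.Adj x y → ¬ (M₁.Adj x y ∧ M₂.Adj x y) := by
    rintro ⟨N, hN, hN'⟩
    apply hno
    refine ⟨N, hN, fun e he => ?_⟩
    induction e using Sym2.ind with
    | _ a b =>
      simp only [SimpleGraph.Subgraph.mem_edgeSet] at he
      exact hN' a b he.2.2 ⟨he.1, he.2.1⟩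
  obtain ⟨Q, hodd, hdis, hQ⟩ := core G (fun x y => M₁.Adj x y ∧ M₂.Adj x y)
    (fun x y h => ⟨h.1.symm, h.2.symm⟩) h₁.even_card hno'
  set Q₁ := Q.filter fun K => ∀ x ∈ K, ∀ y ∉ K, G.Adj x y → M₁.Adj x y with hQ₁
  set Q₂ := Q.filter fun K => ∀ x ∈ K, ∀ y ∉ K, G.Adj x y → M₂.Adj x y with hQ₂
  have hm₁ : ∀ K, K ∈ Q₁ ↔ K ∈ Q ∧ ∀ x ∈ K, ∀ y ∉ K, G.Adj x y → M₁.Adj x y := by
    intro K; rw [hQ₁, Finset.mem_filter]
  have hm₂ : ∀ K, K ∈ Q₂ ↔ K ∈ Q ∧ ∀ x ∈ K, ∀ y ∉ K, G.Adj x y → M₂.Adj x y := by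
    intro K; rw [hQ₂, Finset.mem_filter]
  have hc₁' : ∀ K ∈ Q₁, d₁ ≤ cutN G (fun x y => ¬ M₂.Adj x y) K := by
    intro K hK
    rw [cutN_card]
    exact hc₁ K (hodd K ((hm₁ K).1 hK).1) ((hm₁ K).1 hK).2
  have hc₂' : ∀ K ∈ Q₂, d₂ ≤ cutN G (fun x y => ¬ M₁.Adj x y) K := by
    intro K hK
    rw [cutN_card]
    exact hc₂ K (hodd K ((hm₂ K).1 hK).1) ((hm₂ K).1 hK).2
  have h12 : Disjoint Q₁ Q₂ := by
    rw [Finset.disjoint_left]
    intro K hK hK'
    have h1 := hc₁' K hK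
    rw [cutN_zero (fun x hx y hy hxy h => h (((hm₂ K).1 hK').2 x hx y hy hxy))] at h1
    omega
  obtain ⟨A, hA1, hA2, hA3⟩ := family (G.deleteEdges M₁.edgeSet) Q₁
    (fun K hK => hodd K ((hm₁ K).1 hK).1)
    (fun K hK K' hK' h => hdis K ((hm₁ K).1 hK).1 K' ((hm₁ K').1 hK').1 h)
    (by
      intro K hK x hx y hxy
      by_contra hy
      rw [SimpleGraph.deleteEdges_adj] at hxy
      exact hxy.2 (((hm₁ K).1 hK).2 x hx y hy hxy.1))
  obtain ⟨B, hB1, hB2, hB3⟩ := family (G.deleteEdges M₂.edgeSet) Q₂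
    (fun K hK => hodd K ((hm₂ K).1 hK).1)
    (fun K hK K' hK' h => hdis K ((hm₂ K).1 hK).1 K' ((hm₂ K').1 hK').1 h)
    (by
      intro K hK x hx y hxy
      by_contra hy
      rw [SimpleGraph.deleteEdges_adj] at hxy
      exact hxy.2 (((hm₂ K).1 hK).2 x hx y hy hxy.1))
  refine ⟨A, B, hA2, hB2, ?_, ?_⟩
  · intro C hC C' hC'
    obtain ⟨K, hK, hCK⟩ := hA3 C hC
    obtain ⟨K', hK', hCK'⟩ := hB3 C' hC'
    have hne : K ≠ K' := by
      rintro rfl
      exact (Finset.disjoint_left.1 h12) hK hK'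
    have h3 := hdis K ((hm₁ K).1 hK).1 K' ((hm₂ K').1 hK').1 hne
    exact Set.disjoint_of_subset hCK hCK' (by exact_mod_cast h3)
  · intro a b
    have key := hQ (wab M₁ M₂ a b) (2 * (a + b))
      (by
        intro x y
        unfold wab
        simp only [M₁.adj_comm x y, M₂.adj_comm x y])
      (fun x => wab_deg hG h₁ h₂ a b x)
    have hz : (∑ x, ∑ y, if G.Adj x y ∧ (M₁.Adj x y ∧ M₂.Adj x y) then
        wab M₁ M₂ a b x y else 0 : ℕ) = 0 := by
      apply Finset.sum_eq_zero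
      intro x _
      apply Finset.sum_eq_zero
      intro y _
      by_cases h : M₁.Adj x y ∧ M₂.Adj x y
      · simp [wab, h.1, h.2]
      · simp [h]
    have hb : ∀ K ∈ Q, (((2 * (a + b) : ℕ) : ℤ) - cutW G (wab M₁ M₂ a b) K) ≤
        (if K ∈ Q₁ then ((2 * (a + b) - b * d₁ : ℕ) : ℤ) else 0) +
        (if K ∈ Q₂ then ((2 * (a + b) - a * d₂ : ℕ) : ℤ) else 0) := by
      intro K hK
      rw [cutW_wab]
      by_cases hk1 : K ∈ Q₁
      · have hk2 : K ∉ Q₂ := (Finset.disjoint_left.1 h12) hk1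
        rw [if_pos hk1, if_neg hk2, add_zero]
        have h1 : b * d₁ ≤ b * cutN G (fun x y => ¬ M₂.Adj x y) K :=
          Nat.mul_le_mul_left _ (hc₁' K hk1)
        have h2 : b * d₁ ≤ a * cutN G (fun x y => ¬ M₁.Adj x y) K +
            b * cutN G (fun x y => ¬ M₂.Adj x y) K := by omega
        have h3 : (2 * (a + b) : ℕ) ≤ (2 * (a + b) - b * d₁ : ℕ) +
            (a * cutN G (fun x y => ¬ M₁.Adj x y) K +
            b * cutN G (fun x y => ¬ M₂.Adj x y) K) := by omega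
        have h4 : ((2 * (a + b) : ℕ) : ℤ) ≤ ((2 * (a + b) - b * d₁ : ℕ) : ℤ) +
            ((a * cutN G (fun x y => ¬ M₁.Adj x y) K +
            b * cutN G (fun x y => ¬ M₂.Adj x y) K : ℕ) : ℤ) := by exact_mod_cast h3
        linarith
      · by_cases hk2 : K ∈ Q₂
        · rw [if_neg hk1, if_pos hk2, zero_add]
          have h1 : a * d₂ ≤ a * cutN G (fun x y => ¬ M₁.Adj x y) K :=
            Nat.mul_le_mul_left _ (hc₂' K hk2)
          have h3 : (2 * (a + b) : ℕ) ≤ (2 * (a + b) - a * d₂ : ℕ) +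
              (a * cutN G (fun x y => ¬ M₁.Adj x y) K +
              b * cutN G (fun x y => ¬ M₂.Adj x y) K) := by omega
          have h4 : ((2 * (a + b) : ℕ) : ℤ) ≤ ((2 * (a + b) - a * d₂ : ℕ) : ℤ) +
              ((a * cutN G (fun x y => ¬ M₁.Adj x y) K +
              b * cutN G (fun x y => ¬ M₂.Adj x y) K : ℕ) : ℤ) := by exact_mod_cast h3
          linarith
        · rw [if_neg hk1, if_neg hk2, add_zero]
          have h1 : 2 ≤ cutN G (fun x y => ¬ M₁.Adj x y) K :=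
            two_le_cut hG h₁ (fun h => hk1 ((hm₁ K).2 ⟨hK, h⟩))
          have h2 : 2 ≤ cutN G (fun x y => ¬ M₂.Adj x y) K :=
            two_le_cut hG h₂ (fun h => hk2 ((hm₂ K).2 ⟨hK, h⟩))
          have h3 : (2 * (a + b) : ℕ) ≤ a * cutN G (fun x y => ¬ M₁.Adj x y) K +
              b * cutN G (fun x y => ¬ M₂.Adj x y) K := by
            have := Nat.mul_le_mul_left a h1
            have := Nat.mul_le_mul_left b h2
            omega
          have h4 : ((2 * (a + b) : ℕ) : ℤ) ≤ ((a * cutN G (fun x y => ¬ M₁.Adj x y) K +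
              b * cutN G (fun x y => ¬ M₂.Adj x y) K : ℕ) : ℤ) := by exact_mod_cast h3
          linarith
    have hs := Finset.sum_le_sum hb
    rw [Finset.sum_add_distrib, Finset.sum_ite_mem, Finset.sum_ite_mem] at hs
    have hi1 : Q ∩ Q₁ = Q₁ := Finset.inter_eq_right.2 (Finset.filter_subset _ _)
    have hi2 : Q ∩ Q₂ = Q₂ := Finset.inter_eq_right.2 (Finset.filter_subset _ _)
    rw [hi1, hi2, Finset.sum_const, Finset.sum_const, nsmul_eq_mul, nsmul_eq_mul] at hs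
    have hz' : ((∑ x, ∑ y, (if G.Adj x y ∧ (M₁.Adj x y ∧ M₂.Adj x y) then
        wab M₁ M₂ a b x y else 0 : ℕ) : ℕ) : ℤ) = 0 := by
      exact_mod_cast hz
    have hfin : (2 : ℤ) * ((2 * (a + b) : ℕ) : ℤ) ≤
        (Q₁.card : ℤ) * ((2 * (a + b) - b * d₁ : ℕ) : ℤ) +
        (Q₂.card : ℤ) * ((2 * (a + b) - a * d₂ : ℕ) : ℤ) := by
      have := key
      rw [hz'] at this
      linarith
    rw [hA1, hB1]
    have h9 : 2 * (2 * (a + b)) ≤ Q₁.card * (2 * (a + b) - b * d₁) +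
        Q₂.card * (2 * (a + b) - a * d₂) := by exact_mod_cast hfin
    omega

end Pool.Agent.Helper5.FRB
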