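import Pool.Agent.Helper5.FRB.Odd
import Pool.Agent.Helper5.FRB.Near

/-!
# Two perfect matchings of a cubic graph
-/

set_option autoImplicit false

namespace Pool.Agent.Helper5.FRB

open Finset Pool.Agent.Helper55.FR

variable {V : Type} [Fintype V] [DecidableEq V]

/-- A Tutte barrier with its odd components. -/
structure Barrier (G : SimpleGraph V) (J : V → V → Prop) (T : Finset V)
    (Q : Finset (Finset V)) : Prop where
  card : T.card + 2 ≤ Q.card
  odd : ∀ K ∈ Q, Odd K.card
  dis : ∀ K ∈ Q, ∀ K' ∈ Q, K ≠ K' → Disjoint K K'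
  disT : ∀ K ∈ Q, Disjoint T K
  cl : ∀ K ∈ Q, ∀ x ∈ K, ∀ y, G.Adj x y → ¬ J x y → y ∈ K ∨ y ∈ T

theorem exists_barrier (G : SimpleGraph V) (J : V → V → Prop)
    (hJ : ∀ x y, J x y → J y x) (heven : Even (Fintype.card V))
    (hno : ¬ ∃ N : G.Subgraph, N.IsPerfectMatching ∧ ∀ x y, N.Adj x y → ¬ J x y) :
    ∃ T Q, Barrier G J T Q := by
  classical
  have hPM : ¬ PMf (fun x y => G.Adj x y ∧ ¬ J x y) := by
    rintro ⟨q, hqq, -, hr⟩
    obtain ⟨N, hN, hN'⟩ := pm_of_inv G q hqq (fun x => (hr x).1)
    refine hno ⟨N, hN, fun x y h => ?_⟩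
    rw [hN'] at h
    rw [← h]
    exact (hr x).2
  obtain ⟨T, Q, hC, hcard⟩ := Pool.Agent.Helper89.FR.tut V (fun x y => G.Adj x y ∧ ¬ J x y)
    (fun x y h => ⟨h.1.symm, fun h' => h.2 (hJ _ _ h')⟩) (fun x h => h.1.ne rfl) hPM
  set Qo := Q.filter fun K => Odd K.card with hQo
  have hVc : Fintype.card V = T.card + ∑ K ∈ Q, K.card := by
    have h1 : (Finset.univ : Finset V) = T ∪ Q.biUnion id := by
      ext x
      simp only [mem_univ, mem_union, mem_biUnion, id, true_iff]
      by_cases hx : x ∈ T
      · exact Or.inl hx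
      · exact Or.inr (hC.cov x hx)
    have h2 : Disjoint T (Q.biUnion id) := by
      rw [Finset.disjoint_biUnion_right]
      exact fun K hK => hC.dis K hK
    rw [← Finset.card_univ, h1, Finset.card_union_of_disjoint h2, Finset.card_biUnion]
    · rfl
    · intro K hK K' hK' hne
      exact hC.kK K hK K' hK' hne
  have hpar : (∑ K ∈ Q, K.card) % 2 = Qo.card % 2 := by
    rw [Finset.card_filter, Finset.sum_nat_mod,
      Finset.sum_nat_mod Q 2 (fun K => if Odd K.card then 1 else 0)]
    congr 1
    apply Finset.sum_congr rfl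
    intro K _
    by_cases h : Odd K.card
    · rw [if_pos h, Nat.odd_iff.1 h]
    · rw [if_neg h, Nat.even_iff.1 (Nat.not_odd_iff_even.1 h)]
  refine ⟨T, Qo, ⟨?_, fun K hK => (Finset.mem_filter.1 hK).2, ?_,
    fun K hK => hC.dis K (Finset.mem_filter.1 hK).1, ?_⟩⟩
  · rw [Nat.even_iff] at heven
    omega
  · intro K hK K' hK' hne
    exact hC.kK K (Finset.mem_filter.1 hK).1 K' (Finset.mem_filter.1 hK').1 hne
  · intro K hK x hx y h1 h2
    exact hC.cl K (Finset.mem_filter.1 hK).1 x hx y ⟨h1, h2⟩

/-- The weight inequality of a barrier, when the edges in `J` have weight zero. -/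
theorem weight_ineq {G : SimpleGraph V} [DecidableRel G.Adj] {J : V → V → Prop} {T : Finset V}
    {Q : Finset (Finset V)} (hB : Barrier G J T Q) (W : V → V → ℕ) (D : ℕ)
    (hW : ∀ x y, W x y = W y x) (hD : ∀ x, ∑ y, (if G.Adj x y then W x y else 0) = D)
    (hJW : ∀ x y, J x y → W x y = 0) : ∑ K ∈ Q, cutW G W K ≤ T.card * D := by
  classical
  have hcut : ∀ K ∈ Q, cutW G W K ≤ ∑ x ∈ K, (∑ y ∈ T, if G.Adj x y then W x y else 0) := by
    intro K hK
    unfold cutW
    apply Finset.sum_le_sum
    intro x hx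
    calc ∑ y ∈ Kᶜ, (if G.Adj x y then W x y else 0)
        ≤ ∑ y ∈ Kᶜ, (if y ∈ T then (if G.Adj x y then W x y else 0) else 0) := by
          apply Finset.sum_le_sum
          intro y hy
          by_cases h1 : G.Adj x y
          · by_cases h2 : J x y
            · simp [h1, hJW x y h2]
            · rcases hB.cl K hK x hx y h1 h2 with h3 | h3
              · exact absurd h3 (Finset.mem_compl.1 hy)
              · simp [h1, h3]
          · simp [h1]
      _ ≤ ∑ y, (if y ∈ T then (if G.Adj x y then W x y else 0) else 0) :=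
          Finset.sum_le_sum_of_subset (Finset.subset_univ _)
      _ = _ := by
          rw [← Finset.sum_filter]
          congr 1
          ext y
          simp
  calc ∑ K ∈ Q, cutW G W K ≤ ∑ K ∈ Q, ∑ x ∈ K, (∑ y ∈ T, if G.Adj x y then W x y else 0) :=
        Finset.sum_le_sum hcut
    _ ≤ ∑ x, (∑ y ∈ T, if G.Adj x y then W x y else 0) := sum_disjoint_le hB.dis _
    _ = _ := by
        rw [Finset.sum_comm, ← smul_eq_mul, ← Finset.sum_const]
        apply Finset.sum_congr rfl
        intro y _
        rw [← hD y]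
        apply Finset.sum_congr rfl
        intro x _
        rw [hW x y]
        simp only [G.adj_comm x y]

/-- Parity: the vertices of `K` which are neither fixed by `q` nor mapped outside are paired. -/
lemma parity_inv (q : V → V) (hq : ∀ x, q (q x) = x) (K : Finset V) :
    K.card % 2 = ((K.filter fun x => q x = x).card + (K.filter fun x => q x ∉ K).card) % 2 := by
  have h1 : K.card = (K.filter fun x => q x = x).card + (K.filter fun x => q x ∉ K).card +
      (K.filter fun x => q x ∈ K ∧ q x ≠ x).card := by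
    rw [Finset.card_filter, Finset.card_filter, Finset.card_filter, Finset.card_eq_sum_ones,
      ← Finset.sum_add_distrib, ← Finset.sum_add_distrib]
    apply Finset.sum_congr rfl
    intro x hx
    by_cases h1 : q x = x
    · simp [h1, hx]
    · by_cases h2 : q x ∈ K <;> simp [h1, h2]
  have h2 : ((K.filter fun x => q x ∈ K ∧ q x ≠ x).card : ZMod 2) = 0 := by
    rw [Finset.card_eq_sum_ones]
    push_cast
    apply Finset.sum_involution (fun x _ => q x)
    · intro x _
      decide
    · intro x hx _
      exact (Finset.mem_filter.1 hx).2.2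
    · intro x hx
      obtain ⟨ha, hb, hc⟩ := Finset.mem_filter.1 hx
      rw [Finset.mem_filter]
      refine ⟨hb, ?_, ?_⟩
      · rw [hq]; exact ha
      · rw [hq]; exact Ne.symm hc
    · intro x _
      exact hq x
  rw [ZMod.natCast_eq_zero_iff] at h2
  omega

/-- The fixed points of a matching with at most one vertex left over in each component. -/
lemma fixed_le (H : SimpleGraph V) (q : V → V) (hq : IsInv H q)
    (huniq : ∀ x y, q x = x → q y = y → H.Reachable x y → x = y) :
    (univ.filter fun x => q x = x).card ≤ {C : H.ConnectedComponent | Odd C.supp.ncard}.ncard := by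
  classical
  rw [← Set.ncard_coe_finset]
  apply Set.ncard_le_ncard_of_injOn (fun x => H.connectedComponentMk x)
  · intro x hx
    rw [Finset.mem_coe, Finset.mem_filter] at hx
    have hx' := hx.2
    show Odd (H.connectedComponentMk x).supp.ncard
    set K := univ.filter fun y => H.connectedComponentMk y = H.connectedComponentMk x with hK
    have h1 : (H.connectedComponentMk x).supp = (K : Set V) := by
      ext y
      simp [hK]
    rw [h1, Set.ncard_coe_finset, Nat.odd_iff, parity_inv q hq.1 K]
    have h2 : (K.filter fun y => q y = y) = {x} := by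
      ext y
      rw [Finset.mem_filter, Finset.mem_singleton, hK, Finset.mem_filter]
      constructor
      · rintro ⟨⟨-, h⟩, h'⟩
        exact huniq y x h' hx' (SimpleGraph.ConnectedComponent.eq.1 h)
      · rintro rfl
        exact ⟨⟨Finset.mem_univ _, rfl⟩, hx'⟩
    have h3 : (K.filter fun y => q y ∉ K) = ∅ := by
      rw [Finset.filter_eq_empty_iff]
      intro y hy h
      apply h
      rw [hK, Finset.mem_filter] at hy ⊢
      refine ⟨Finset.mem_univ _, ?_⟩
      by_cases h4 : q y = y
      · rw [h4]; exact hy.2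
      · rw [← hy.2, SimpleGraph.ConnectedComponent.eq]
        exact (hq.2 y h4).symm.reachable
    rw [h2, h3]
    simp
  · intro x hx y hy h
    rw [Finset.mem_coe, Finset.mem_filter] at hx hy
    exact huniq x y hx.2 hy.2 (SimpleGraph.ConnectedComponent.eq.1 h)

variable {G : SimpleGraph V}

open Classical in
/-- The inequality from the near-perfect matching `q` of the edges outside both matchings. -/
theorem near_ineq {M M' : G.Subgraph}
    (hdeg : ∀ y, (∑ x, if G.Adj y x ∧ ¬ M.Adj y x then 1 else 0 : ℕ) = 2)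
    (hfe : ∀ K : Finset V, cutN G (fun x y => ¬ M.Adj x y) K % 2 = 0)
    {T : Finset V} {Q : Finset (Finset V)} {J : V → V → Prop} (hJM : ∀ x y, J x y → M.Adj x y)
    (hB : Barrier G J T Q) (q : V → V) (hqq : ∀ x, q (q x) = x)
    (hqadj : ∀ x, q x ≠ x → G.Adj x (q x) ∧ ¬ M.Adj x (q x) ∧ ¬ M'.Adj x (q x)) (d : ℕ)
    (Q' : Finset (Finset V)) (hQ' : Q' ⊆ Q)
    (hcM : ∀ K ∈ Q', ∀ x ∈ K, ∀ y ∉ K, G.Adj x y → M'.Adj x y)
    (hd : ∀ K ∈ Q', d ≤ cutN G (fun x y => ¬ M.Adj x y) K) :
    Q.card + Q'.card * d ≤ T.card + (univ.filter fun x => q x = x).card := by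
  let p : Finset V → ℕ := fun K => ∑ x ∈ K, ∑ y ∈ T,
    if G.Adj x y ∧ ¬ M.Adj x y ∧ q x ≠ y then 1 else 0
  let u : Finset V → ℕ := fun K => (K.filter fun x => q x = x).card
  let m : Finset V → ℕ := fun K => (K.filter fun x => q x ∉ K).card
  let e : V → V → ℕ := fun x y => if G.Adj x y ∧ ¬ M.Adj x y then 1 else 0
  have he1 : ∀ x y, (G.Adj x y ∧ ¬ M.Adj x y) → e x y = 1 := fun x y h => if_pos h
  have he0 : ∀ x y, ¬ (G.Adj x y ∧ ¬ M.Adj x y) → e x y = 0 := fun x y h => if_neg h
  have hcutK : ∀ K : Finset V, cutN G (fun x y => ¬ M.Adj x y) K = ∑ x ∈ K, ∑ y ∈ Kᶜ, e x y := by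
    intro K
    unfold cutN
    apply Finset.sum_congr rfl
    intro x _
    apply Finset.sum_congr rfl
    intro y _
    by_cases h : G.Adj x y ∧ ¬ M.Adj x y
    · rw [he1 _ _ h, if_pos h]
    · rw [he0 _ _ h, if_neg h]
  -- edges outside `M` leaving `K`
  have hf1 : ∀ K ∈ Q, cutN G (fun x y => ¬ M.Adj x y) K ≤ m K + p K := by
    intro K hK
    have h1 : m K = ∑ x ∈ K, if q x ∉ K then 1 else 0 := by
      simp only [m, Finset.card_filter]
    rw [h1, hcutK]
    simp only [p]
    rw [← Finset.sum_add_distrib]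
    apply Finset.sum_le_sum
    intro x hx
    calc ∑ y ∈ Kᶜ, e x y
        ≤ ∑ y ∈ Kᶜ, ((if q x = y then 1 else 0) +
            (if y ∈ T then (if G.Adj x y ∧ ¬ M.Adj x y ∧ q x ≠ y then 1 else 0) else 0)) := by
          apply Finset.sum_le_sum
          intro y hy
          by_cases h1 : G.Adj x y ∧ ¬ M.Adj x y
          · rw [he1 _ _ h1]
            by_cases h2 : q x = y
            · rw [if_pos h2]
              exact Nat.le_add_right _ _
            · have h3 : y ∈ T := by
                rcases hB.cl K hK x hx y h1.1 (fun h => h1.2 (hJM _ _ h)) with h3 | h3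
                · exact absurd h3 (Finset.mem_compl.1 hy)
                · exact h3
              rw [if_neg h2, if_pos h3, if_pos ⟨h1.1, h1.2, h2⟩]
          · rw [he0 _ _ h1]
            exact Nat.zero_le _
      _ = (∑ y ∈ Kᶜ, (if q x = y then 1 else 0)) + ∑ y ∈ Kᶜ,
            (if y ∈ T then (if G.Adj x y ∧ ¬ M.Adj x y ∧ q x ≠ y then 1 else 0) else 0) :=
          Finset.sum_add_distrib
      _ ≤ (if q x ∉ K then 1 else 0) +
            ∑ y ∈ T, (if G.Adj x y ∧ ¬ M.Adj x y ∧ q x ≠ y then 1 else 0) := by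
          apply Nat.add_le_add
          · rw [Finset.sum_ite_eq]
            simp
          · calc _ ≤ ∑ y, (if y ∈ T then
                  (if G.Adj x y ∧ ¬ M.Adj x y ∧ q x ≠ y then 1 else 0) else 0) :=
                  Finset.sum_le_sum_of_subset (Finset.subset_univ _)
              _ = _ := by
                  rw [← Finset.sum_filter]
                  congr 1
                  ext y
                  simp
  -- matching edges leaving `K` are edges outside `M`
  have hf2 : ∀ K ∈ Q, m K ≤ cutN G (fun x y => ¬ M.Adj x y) K := by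
    intro K _
    have h1 : m K = ∑ x ∈ K, if q x ∉ K then 1 else 0 := by
      simp only [m, Finset.card_filter]
    rw [h1, hcutK]
    apply Finset.sum_le_sum
    intro x hx
    by_cases h : q x ∉ K
    · rw [if_pos h]
      have hne : q x ≠ x := fun h' => h (by rw [h']; exact hx)
      obtain ⟨ha, hb, -⟩ := hqadj x hne
      calc 1 = e x (q x) := (he1 _ _ ⟨ha, hb⟩).symm
        _ ≤ _ := Finset.single_le_sum (f := fun y => e x y)
            (fun i _ => Nat.zero_le _) (Finset.mem_compl.2 h)
    · rw [if_neg h]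
      exact Nat.zero_le _
  have hKp : ∀ K ∈ Q, 1 + (if K ∈ Q' then d else 0) ≤ p K + u K := by
    intro K hK
    have hpar := parity_inv q hqq K
    have hodd := Nat.odd_iff.1 (hB.odd K hK)
    have h1 := hf1 K hK
    have h2 := hf2 K hK
    have h3 := hfe K
    have hu : u K = (K.filter fun x => q x = x).card := rfl
    have hm : m K = (K.filter fun x => q x ∉ K).card := rfl
    rw [← hu, ← hm] at hpar
    by_cases hc : K ∈ Q'
    · rw [if_pos hc]
      have hm0 : m K = 0 := by
        rw [hm, Finset.card_eq_zero, Finset.filter_eq_empty_iff]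
        intro x hx hn
        have hne : q x ≠ x := fun h' => hn (by rw [h']; exact hx)
        obtain ⟨ha, -, hb⟩ := hqadj x hne
        exact hb (hcM K hc x hx _ hn ha)
      have h4 := hd K hc
      omega
    · rw [if_neg hc]
      omega
  have hsum := Finset.sum_le_sum hKp
  rw [Finset.sum_add_distrib, Finset.sum_add_distrib, ← Finset.card_eq_sum_ones,
    Finset.sum_ite_mem, Finset.inter_eq_right.2 hQ', Finset.sum_const, smul_eq_mul] at hsum
  -- the right hand side
  have hp : ∑ K ∈ Q, p K ≤ ∑ y ∈ T, ∑ x, if G.Adj x y ∧ ¬ M.Adj x y ∧ q x ≠ y then 1 else 0 := by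
    rw [Finset.sum_comm (s := T)]
    exact sum_disjoint_le hB.dis _
  have hT : ∀ y ∈ T, (∑ x, if G.Adj x y ∧ ¬ M.Adj x y ∧ q x ≠ y then 1 else 0 : ℕ) ≤
      1 + if q y = y then 1 else 0 := by
    intro y _
    have h2 := hdeg y
    by_cases h : q y = y
    · rw [if_pos h]
      refine le_trans ?_ (le_of_eq h2)
      apply Finset.sum_le_sum
      intro x _
      by_cases h3 : G.Adj x y ∧ ¬ M.Adj x y ∧ q x ≠ y
      · have h4 : G.Adj y x ∧ ¬ M.Adj y x := ⟨h3.1.symm, fun h' => h3.2.1 h'.symm⟩
        rw [if_pos h3, if_pos h4]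
      · rw [if_neg h3]
        exact Nat.zero_le _
    · rw [if_neg h, add_zero]
      obtain ⟨ha, hb, -⟩ := hqadj y h
      have h3 : (∑ x, if G.Adj x y ∧ ¬ M.Adj x y ∧ q x ≠ y then 1 else 0 : ℕ) +
          (∑ x, if x = q y then 1 else 0 : ℕ) ≤ 2 := by
        refine le_trans ?_ (le_of_eq h2)
        rw [← Finset.sum_add_distrib]
        apply Finset.sum_le_sum
        intro x _
        by_cases h4 : x = q y
        · rw [h4]
          simp [ha, hb, hqq]
        · by_cases h3 : G.Adj x y ∧ ¬ M.Adj x y ∧ q x ≠ y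
          · have h5 : G.Adj y x ∧ ¬ M.Adj y x := ⟨h3.1.symm, fun h' => h3.2.1 h'.symm⟩
            rw [if_pos h3, if_pos h5, if_neg h4]
          · rw [if_neg h3, if_neg h4]
            exact Nat.zero_le _
      rw [Finset.sum_ite_eq' univ (q y) (fun _ => 1)] at h3
      simp only [Finset.mem_univ, if_true] at h3
      omega
  have hT' := Finset.sum_le_sum hT
  rw [Finset.sum_add_distrib, ← Finset.card_eq_sum_ones, ← Finset.card_filter] at hT'
  -- fixed points
  have hu : ∑ K ∈ Q, u K + (T.filter fun y => q y = y).card ≤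
      (univ.filter fun x => q x = x).card := by
    have h1 : ∑ K ∈ Q, u K = (Q.biUnion fun K => K.filter fun x => q x = x).card := by
      rw [Finset.card_biUnion]
      intro K hK K' hK' hne
      exact Finset.disjoint_filter_filter (hB.dis K hK K' hK' hne)
    rw [h1, ← Finset.card_union_of_disjoint]
    · apply Finset.card_le_card
      intro x hx
      rw [Finset.mem_filter]
      refine ⟨Finset.mem_univ _, ?_⟩
      rcases Finset.mem_union.1 hx with h | h
      · obtain ⟨K, -, hK⟩ := Finset.mem_biUnion.1 h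
        exact (Finset.mem_filter.1 hK).2
      · exact (Finset.mem_filter.1 h).2
    · rw [Finset.disjoint_biUnion_left]
      intro K hK
      exact (Finset.disjoint_filter_filter (hB.disT K hK).symm)
  omega

end Pool.Agent.Helper5.FRB
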