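import Pool.Agent.Helper5.FRB.Two

/-!
# Two perfect matchings of a cubic graph: the main theorem
-/

set_option autoImplicit false

namespace Pool.Agent.Helper5.FRB

open Finset

variable {V : Type} [Fintype V] [DecidableEq V]

lemma cutN_parity_pm {G : SimpleGraph V} [DecidableRel G.Adj] (hG : G.IsRegularOfDegree 3)
    {M : G.Subgraph} (hM : M.IsPerfectMatching) (K : Finset V) :
    cutN G (fun x y => ¬ M.Adj x y) K % 2 = 0 := by
  classical
  have h2 := cutN_parity G (fun x y => ¬ M.Adj x y) (fun x y h h' => h h'.symm) K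
  have h3 : Even (cutN G (fun x y => ¬ M.Adj x y) K + ∑ x ∈ K, 2) := by
    convert h2 using 2
    apply Finset.sum_congr rfl
    intro x _
    symm
    convert co_deg hG hM x
  rw [Finset.sum_const, smul_eq_mul, Nat.even_iff] at h3
  omega

/-- the weight inequality of the edges outside `M` -/
lemma weight_one {G : SimpleGraph V} [DecidableRel G.Adj] (hG : G.IsRegularOfDegree 3)
    {M M' : G.Subgraph} (hM : M.IsPerfectMatching) {J : V → V → Prop}
    (hJM : ∀ x y, J x y → M.Adj x y) {T : Finset V} {Q : Finset (Finset V)}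
    (hB : Barrier G J T Q) :
    ∑ K ∈ Q, cutN G (fun x y => ¬ M.Adj x y) K ≤ T.card * 2 := by
  classical
  have h := weight_ineq hB (wab M M 1 0) 2
    (by
      intro x y
      unfold wab
      simp only [M.adj_comm x y])
    (fun x => by
      have := wab_deg hG hM hM 1 0 x
      simpa using this)
    (by
      intro x y h
      have := hJM x y h
      simp [wab, this])
  simpa [cutW_wab] using h

open Classical in
theorem two_matchings (G : SimpleGraph V) [DecidableRel G.Adj] (hG : G.IsRegularOfDegree 3)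
    (M₁ M₂ : G.Subgraph) (h₁ : M₁.IsPerfectMatching) (h₂ : M₂.IsPerfectMatching) (d₁ d₂ : ℕ)
    (hd₁ : 2 ≤ d₁) (hd₂ : 2 ≤ d₂)
    (hc₁ : ∀ K : Finset V, Odd K.card → (∀ x ∈ K, ∀ y ∉ K, G.Adj x y → M₁.Adj x y) →
      d₁ ≤ ((K ×ˢ Kᶜ).filter fun p => G.Adj p.1 p.2 ∧ ¬ M₂.Adj p.1 p.2).card)
    (hc₂ : ∀ K : Finset V, Odd K.card → (∀ x ∈ K, ∀ y ∉ K, G.Adj x y → M₂.Adj x y) →
      d₂ ≤ ((K ×ˢ Kᶜ).filter fun p => G.Adj p.1 p.2 ∧ ¬ M₁.Adj p.1 p.2).card)
    (hno : ¬ ∃ M₃ : G.Subgraph, M₃.IsPerfectMatching ∧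
      ∀ e, ¬ (e ∈ M₁.edgeSet ∧ e ∈ M₂.edgeSet ∧ e ∈ M₃.edgeSet)) :
    ∃ (A : Finset (G.deleteEdges M₁.edgeSet).ConnectedComponent)
      (B : Finset (G.deleteEdges M₂.edgeSet).ConnectedComponent),
      (∀ C ∈ A, Odd C.supp.ncard) ∧ (∀ C ∈ B, Odd C.supp.ncard) ∧
      (∀ C ∈ A, ∀ C' ∈ B, Disjoint C.supp C'.supp) ∧
      4 + (d₂ - 2) * B.card ≤ 2 * A.card ∧ 4 + (d₁ - 2) * A.card ≤ 2 * B.card ∧
      2 + d₁ * A.card ≤ {C : (G.deleteEdges (M₁.edgeSet ∪ M₂.edgeSet)).ConnectedComponent |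
        Odd C.supp.ncard}.ncard ∧
      2 + d₂ * B.card ≤ {C : (G.deleteEdges (M₁.edgeSet ∪ M₂.edgeSet)).ConnectedComponent |
        Odd C.supp.ncard}.ncard := by
  have hno' : ¬ ∃ N : G.Subgraph, N.IsPerfectMatching ∧
      ∀ x y, N.Adj x y → ¬ (M₁.Adj x y ∧ M₂.Adj x y) := by
    rintro ⟨N, hN, hN'⟩
    apply hno
    refine ⟨N, hN, fun e he => ?_⟩
    induction e using Sym2.ind with
    | _ a b =>
      simp only [SimpleGraph.Subgraph.mem_edgeSet] at he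
      exact hN' a b he.2.2 ⟨he.1, he.2.1⟩
  obtain ⟨T, Q, hB⟩ := exists_barrier G (fun x y => M₁.Adj x y ∧ M₂.Adj x y)
    (fun x y h => ⟨h.1.symm, h.2.symm⟩) h₁.even_card hno'
  set Q₁ := Q.filter fun K => ∀ x ∈ K, ∀ y ∉ K, G.Adj x y → M₁.Adj x y with hQ₁
  set Q₂ := Q.filter fun K => ∀ x ∈ K, ∀ y ∉ K, G.Adj x y → M₂.Adj x y with hQ₂
  have hm₁ : ∀ K, K ∈ Q₁ ↔ K ∈ Q ∧ ∀ x ∈ K, ∀ y ∉ K, G.Adj x y → M₁.Adj x y := by
    intro K; rw [hQ₁, Finset.mem_filter]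
  have hm₂ : ∀ K, K ∈ Q₂ ↔ K ∈ Q ∧ ∀ x ∈ K, ∀ y ∉ K, G.Adj x y → M₂.Adj x y := by
    intro K; rw [hQ₂, Finset.mem_filter]
  have hc₁' : ∀ K ∈ Q₁, d₁ ≤ cutN G (fun x y => ¬ M₂.Adj x y) K := by
    intro K hK
    rw [cutN_card]
    exact hc₁ K (hB.odd K ((hm₁ K).1 hK).1) ((hm₁ K).1 hK).2
  have hc₂' : ∀ K ∈ Q₂, d₂ ≤ cutN G (fun x y => ¬ M₁.Adj x y) K := by
    intro K hK
    rw [cutN_card]
    exact hc₂ K (hB.odd K ((hm₂ K).1 hK).1) ((hm₂ K).1 hK).2
  have h12 : Disjoint Q₁ Q₂ := by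
    rw [Finset.disjoint_left]
    intro K hK hK'
    have h1 := hc₁' K hK
    rw [cutN_zero (fun x hx y hy hxy h => h (((hm₂ K).1 hK').2 x hx y hy hxy))] at h1
    omega
  obtain ⟨A, hA1, hA2, hA3⟩ := family (G.deleteEdges M₁.edgeSet) Q₁
    (fun K hK => hB.odd K ((hm₁ K).1 hK).1)
    (fun K hK K' hK' h => hB.dis K ((hm₁ K).1 hK).1 K' ((hm₁ K').1 hK').1 h)
    (by
      intro K hK x hx y hxy
      by_contra hy
      rw [SimpleGraph.deleteEdges_adj] at hxy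
      exact hxy.2 (((hm₁ K).1 hK).2 x hx y hy hxy.1))
  obtain ⟨B, hB1, hB2, hB3⟩ := family (G.deleteEdges M₂.edgeSet) Q₂
    (fun K hK => hB.odd K ((hm₂ K).1 hK).1)
    (fun K hK K' hK' h => hB.dis K ((hm₂ K).1 hK).1 K' ((hm₂ K').1 hK').1 h)
    (by
      intro K hK x hx y hxy
      by_contra hy
      rw [SimpleGraph.deleteEdges_adj] at hxy
      exact hxy.2 (((hm₂ K).1 hK).2 x hx y hy hxy.1))
  -- the matching of the edges in neither perfect matching
  have hHadj : ∀ x y, (G.deleteEdges (M₁.edgeSet ∪ M₂.edgeSet)).Adj x y ↔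
      G.Adj x y ∧ ¬ M₁.Adj x y ∧ ¬ M₂.Adj x y := by
    intro x y
    rw [SimpleGraph.deleteEdges_adj]
    constructor
    · rintro ⟨ha, hb⟩
      exact ⟨ha, fun h => hb (Or.inl h), fun h => hb (Or.inr h)⟩
    · rintro ⟨ha, hb, hc⟩
      refine ⟨ha, fun h => ?_⟩
      rcases h with h | h
      · exact hb h
      · exact hc h
  obtain ⟨q, hq, huniq⟩ := near (G.deleteEdges (M₁.edgeSet ∪ M₂.edgeSet)) (by
    intro x a b c ha hb hc
    by_contra hne
    push Not at hne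
    rw [hHadj] at ha hb hc
    have h3 : ({a, b, c} : Finset V) ⊆ univ.filter fun y => G.Adj x y ∧ ¬ M₁.Adj x y := by
      intro z hz
      simp only [Finset.mem_insert, Finset.mem_singleton] at hz
      rw [Finset.mem_filter]
      rcases hz with rfl | rfl | rfl
      · exact ⟨Finset.mem_univ _, ha.1, ha.2.1⟩
      · exact ⟨Finset.mem_univ _, hb.1, hb.2.1⟩
      · exact ⟨Finset.mem_univ _, hc.1, hc.2.1⟩
    have h4 := Finset.card_le_card h3
    rw [Finset.card_eq_three.2 ⟨a, b, c, hne.1, hne.2.1, hne.2.2, rfl⟩] at h4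
    have h5 := co_deg hG h₁ x
    rw [← Finset.card_filter] at h5
    have h6 : (univ.filter fun y => G.Adj x y ∧ ¬ M₁.Adj x y).card = 2 := by
      convert h5
    omega)
  have hqadj : ∀ x, q x ≠ x → G.Adj x (q x) ∧ ¬ M₁.Adj x (q x) ∧ ¬ M₂.Adj x (q x) := by
    intro x hx
    exact (hHadj _ _).1 (hq.2 x hx)
  have hfix := fixed_le _ q hq huniq
  have hs₁ : Q₁ ⊆ Q := fun K hK => ((hm₁ K).1 hK).1
  have hs₂ : Q₂ ⊆ Q := fun K hK => ((hm₂ K).1 hK).1
  have hn₂ : Q.card + Q₂.card * d₂ ≤ T.card + (univ.filter fun x => q x = x).card :=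
    near_ineq (M := M₁) (M' := M₂) (fun y => by convert co_deg hG h₁ y)
      (fun K => cutN_parity_pm hG h₁ K) (fun x y h => h.1) hB q hq.1 hqadj d₂ Q₂ hs₂
      (fun K hK => ((hm₂ K).1 hK).2) hc₂'
  have hn₁ : Q.card + Q₁.card * d₁ ≤ T.card + (univ.filter fun x => q x = x).card :=
    near_ineq (M := M₂) (M' := M₁) (fun y => by convert co_deg hG h₂ y)
      (fun K => cutN_parity_pm hG h₂ K) (fun x y h => h.2) hB q hq.1
      (fun x hx => ⟨(hqadj x hx).1, (hqadj x hx).2.2, (hqadj x hx).2.1⟩) d₁ Q₁ hs₁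
      (fun K hK => ((hm₁ K).1 hK).2) hc₁'
  have hcard := hB.card
  -- the weight inequalities
  have hsplit : ∀ (P : Finset (Finset V)), P ⊆ Q → ∀ d : ℕ,
      ∑ K ∈ Q, (if K ∈ P then d else 0) = P.card * d := by
    intro P hP d
    rw [Finset.sum_ite_mem, Finset.inter_eq_right.2 hP, Finset.sum_const, smul_eq_mul]
  have hw₂ : Q.card * 2 + Q₂.card * (d₂ - 2) ≤ T.card * 2 + Q₁.card * 2 := by
    have h3 := weight_one (M' := M₂) hG h₁ (fun x y h => h.1) hB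
    have h4 : ∀ K ∈ Q, 2 + (if K ∈ Q₂ then d₂ - 2 else 0) ≤
        cutN G (fun x y => ¬ M₁.Adj x y) K + (if K ∈ Q₁ then 2 else 0) := by
      intro K hK
      by_cases hk1 : K ∈ Q₁
      · have hk2 : K ∉ Q₂ := (Finset.disjoint_left.1 h12) hk1
        rw [if_pos hk1, if_neg hk2]
        omega
      · rw [if_neg hk1]
        by_cases hk2 : K ∈ Q₂
        · rw [if_pos hk2]
          have := hc₂' K hk2
          omega
        · rw [if_neg hk2]
          have := two_le_cut hG h₁ (fun h => hk1 ((hm₁ K).2 ⟨hK, h⟩))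
          omega
    have h5 := Finset.sum_le_sum h4
    rw [Finset.sum_add_distrib, Finset.sum_add_distrib, hsplit _ hs₁, hsplit _ hs₂,
      Finset.sum_const, smul_eq_mul] at h5
    omega
  have hw₁ : Q.card * 2 + Q₁.card * (d₁ - 2) ≤ T.card * 2 + Q₂.card * 2 := by
    have h3 := weight_one (M' := M₁) hG h₂ (fun x y h => h.2) hB
    have h4 : ∀ K ∈ Q, 2 + (if K ∈ Q₁ then d₁ - 2 else 0) ≤
        cutN G (fun x y => ¬ M₂.Adj x y) K + (if K ∈ Q₂ then 2 else 0) := by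
      intro K hK
      by_cases hk2 : K ∈ Q₂
      · have hk1 : K ∉ Q₁ := (Finset.disjoint_right.1 h12) hk2
        rw [if_pos hk2, if_neg hk1]
        omega
      · rw [if_neg hk2]
        by_cases hk1 : K ∈ Q₁
        · rw [if_pos hk1]
          have := hc₁' K hk1
          omega
        · rw [if_neg hk1]
          have := two_le_cut hG h₂ (fun h => hk2 ((hm₂ K).2 ⟨hK, h⟩))
          omega
    have h5 := Finset.sum_le_sum h4
    rw [Finset.sum_add_distrib, Finset.sum_add_distrib, hsplit _ hs₁, hsplit _ hs₂,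
      Finset.sum_const, smul_eq_mul] at h5
    omega
  refine ⟨A, B, hA2, hB2, ?_, ?_, ?_, ?_, ?_⟩
  · intro C hC C' hC'
    obtain ⟨K, hK, hCK⟩ := hA3 C hC
    obtain ⟨K', hK', hCK'⟩ := hB3 C' hC'
    have hne : K ≠ K' := by
      rintro rfl
      exact (Finset.disjoint_left.1 h12) hK hK'
    have h3 := hB.dis K ((hm₁ K).1 hK).1 K' ((hm₂ K').1 hK').1 hne
    exact Set.disjoint_of_subset hCK hCK' (by exact_mod_cast h3)
  · rw [hA1, hB1, mul_comm (d₂ - 2)]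
    omega
  · rw [hA1, hB1, mul_comm (d₁ - 2)]
    omega
  · rw [hA1, mul_comm d₁]
    omega
  · rw [hB1, mul_comm d₂]
    omega

end Pool.Agent.Helper5.FRB
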